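import Pool.Agent.H79.PT.Basic

/-!
Closure properties of polynomial-time functions: lists and unary natural numbers.
-/

namespace Pool.Agent.H79.Cx

open Function

attribute [fun_prop] PT PT.id PT.const PT.comp PT.pair

variable {α β γ δ σ : Type} [Enc α] [Enc β] [Enc γ] [Enc δ] [Enc σ]

@[fun_prop] theorem PT.fst' {f : α → β × γ} (hf : PT f) : PT (fun x => (f x).1) :=
  PT.comp PT.fst hf

@[fun_prop] theorem PT.snd' {f : α → β × γ} (hf : PT f) : PT (fun x => (f x).2) :=
  PT.comp PT.snd hf

@[fun_prop] theorem PT.size' {f : α → β} (hf : PT f) : PT (fun x => sz (f x)) :=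
  PT.comp PT.size hf

theorem PT.cond' {c : α → Bool} {f g : α → β} (hc : PT c) (hf : PT f) (hg : PT g) :
    PT (fun x => if c x = true then f x else g x) := PT.ite hc hf hg

/-- A function whose action on encodings is a polynomial-time function of trees. -/
theorem PT.of_D {f : α → β} {g : D → D} (hg : PT g) (h : ∀ x, Enc.enc (f x) = g (Enc.enc x)) :
    PT f := by
  obtain ⟨p, P, hp⟩ := hg
  refine ⟨p, P, fun x r => ?_⟩
  have := hp (Enc.enc x) r
  have e : cd (f x) = (g (Enc.enc x)).enc := congrArg D.enc (h x)
  rw [e]
  exact this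

@[fun_prop] theorem PT.enc' {f : α → β} (hf : PT f) : PT (fun x => Enc.enc (f x)) := ⟨hf.ex⟩

@[fun_prop] theorem PT.car' {f : α → D} (hf : PT f) : PT (fun x => (f x).car) :=
  PT.comp PT.car hf
@[fun_prop] theorem PT.cdr' {f : α → D} (hf : PT f) : PT (fun x => (f x).cdr) :=
  PT.comp PT.cdr hf
@[fun_prop] theorem PT.isCons' {f : α → D} (hf : PT f) : PT (fun x => Cx.isCons (f x)) :=
  PT.comp PT.isCons hf
@[fun_prop] theorem PT.consD {f g : α → D} (hf : PT f) (hg : PT g) :
    PT (fun x => D.cons (f x) (g x)) := by
  have h : PT (fun x => (f x, g x)) := PT.pair hf hg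
  exact ⟨h.ex⟩

theorem PT.consList {f : α → β} {g : α → List β} (hf : PT f) (hg : PT g) :
    PT (fun x => f x :: g x) := by
  have h : PT (fun x => (f x, g x)) := PT.pair hf hg
  exact ⟨h.ex⟩

attribute [fun_prop] PT.consList

/-- Branching on a propositional condition. -/
@[fun_prop]
theorem PT.ite' {p : α → Prop} [inst : DecidablePred p] {f g : α → β}
    (hc : PT (fun x => decide (p x))) (hf : PT f) (hg : PT g) :
    PT (fun x => if p x then f x else g x) := by
  have h := PT.ite hc hf hg
  simpa using h

@[fun_prop]
theorem PT.dTrue {f : α → Bool} (hf : PT f) : PT (fun x => decide (f x = true)) := by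
  simpa using hf

@[fun_prop]
theorem PT.dFalse {f : α → Bool} (hf : PT f) : PT (fun x => decide (f x = false)) := by
  have h : PT (fun x => if f x = true then false else true) :=
    PT.ite hf (PT.const _) (PT.const _)
  refine cast (congrArg _ (funext fun x => ?_)) h
  cases f x <;> rfl

@[fun_prop]
theorem PT.not' {f : α → Bool} (hf : PT f) : PT (fun x => !(f x)) := by
  have h : PT (fun x => if f x = true then false else true) :=
    PT.ite hf (PT.const _) (PT.const _)
  refine cast (congrArg _ (funext fun x => ?_)) h
  cases f x <;> rfl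

@[fun_prop]
theorem PT.and' {f g : α → Bool} (hf : PT f) (hg : PT g) : PT (fun x => f x && g x) := by
  have h : PT (fun x => if f x = true then g x else false) :=
    PT.ite hf hg (PT.const _)
  refine cast (congrArg _ (funext fun x => ?_)) h
  cases f x <;> rfl

@[fun_prop]
theorem PT.or' {f g : α → Bool} (hf : PT f) (hg : PT g) : PT (fun x => f x || g x) := by
  have h : PT (fun x => if f x = true then true else g x) :=
    PT.ite hf (PT.const _) hg
  refine cast (congrArg _ (funext fun x => ?_)) h
  cases f x <;> rfl

@[fun_prop]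
theorem PT.dAnd {p q : α → Prop} [∀ x, Decidable (p x)] [∀ x, Decidable (q x)]
    (hf : PT (fun x => decide (p x))) (hg : PT (fun x => decide (q x))) :
    PT (fun x => decide (p x ∧ q x)) := by
  have h := PT.and' hf hg
  simpa using h

@[fun_prop]
theorem PT.dOr {p q : α → Prop} [∀ x, Decidable (p x)] [∀ x, Decidable (q x)]
    (hf : PT (fun x => decide (p x))) (hg : PT (fun x => decide (q x))) :
    PT (fun x => decide (p x ∨ q x)) := by
  have h := PT.or' hf hg
  simpa using h

@[fun_prop]
theorem PT.dNot {p : α → Prop} [∀ x, Decidable (p x)]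
    (hf : PT (fun x => decide (p x))) :
    PT (fun x => decide (¬ p x)) := by
  have h := PT.not' hf
  simpa using h

/-- Case distinction on a list. -/
theorem PT.listCases {l : α → List β} {g : α → γ} {h : α → β → List β → γ} (hl : PT l)
    (hg : PT g) (hh : PT (fun p : α × β × List β => h p.1 p.2.1 p.2.2)) :
    PT (fun x => List.rec (motive := fun _ => γ) (g x) (fun b t _ => h x b t) (l x)) := by
  obtain ⟨R, hR⟩ := hl.size_le
  obtain ⟨q, Q, hq⟩ := hl
  obtain ⟨p, P, hp⟩ := hg
  obtain ⟨u, U, hu⟩ := hh
  refine ⟨.seq dup (.seq q (.ite .v isT (.seq swap (.seq (.push .v true) u))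
    (.seq (.pop .v) p))),
    18 * Polynomial.X + Q + P + 9 * Polynomial.X + 9 * R + U.comp (1 + Polynomial.X + R) + 20,
    fun x r => ?_⟩
  have h1 := run_dup (Enc.enc x) r
  have h2 := hq x ((Enc.enc x).enc ++ r)
  have hRx := hR x
  revert h2 hRx
  generalize hlx : l x = lx
  intro h2 hRx
  cases lx with
  | nil =>
    have e : cd ([] : List β) = [false] := rfl
    rw [e] at h2
    have h3 := RunLe.pop .v (st ([false] ++ ((Enc.enc x).enc ++ r)) [] [] [])
    simp only [st_v, update_v, List.cons_append, List.nil_append, List.tail_cons] at h3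
    have h6 := hp x r
    have h := RunLe.seq h1 (RunLe.seq h2 (RunLe.iteF (k := .v) (t := isT)
      (p := .seq swap (.seq (.push .v true) u)) (by simp) (RunLe.seq h3 h6)))
    refine h.mono ?_
    simp only [sz]
    simp only [Polynomial.eval_add, Polynomial.eval_mul, Polynomial.eval_X, Polynomial.eval_ofNat,
      Polynomial.eval_comp, Polynomial.eval_one]
    omega
  | cons b t =>
    have h3 := run_swap (D.cons (Enc.enc b) (Enc.enc t)) (Enc.enc x) r
    have h4 := RunLe.push .v true
      (st ((Enc.enc x).enc ++ ((D.cons (Enc.enc b) (Enc.enc t)).enc ++ r)) [] [] [])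
    simp only [st_v, update_v] at h4
    have h5 := hu (x, b, t) r
    have e : cd (x, b, t) ++ r =
        true :: ((Enc.enc x).enc ++ ((D.cons (Enc.enc b) (Enc.enc t)).enc ++ r)) := by
      simp [cd]
    rw [e] at h5
    have h := RunLe.seq h1 (RunLe.seq h2 (RunLe.iteT (k := .v) (t := isT)
      (q := .seq (.pop .v) p) (by simp [cd]) (RunLe.seq h3 (RunLe.seq h4 h5))))
    refine h.mono ?_
    have e1 : sz (x, b, t) = 1 + sz x + sz (b :: t) := by simp
    have e2 : (D.cons (Enc.enc b) (Enc.enc t)).size = sz (b :: t) := rfl
    have e3 : (Enc.enc x).size = sz x := rfl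
    have m := eval_mono U (show sz (x, b, t) ≤ 1 + sz x + R.eval (sz x) by omega)
    rw [e2, e3]
    simp only [Polynomial.eval_add, Polynomial.eval_mul, Polynomial.eval_X, Polynomial.eval_ofNat,
      Polynomial.eval_comp, Polynomial.eval_one]
    omega

/-- Iteration with a parameter along a spine. -/
theorem PT.iterSpine' {f : α → σ → σ} {n : α → D} {s : α → σ}
    (hf : PT (fun p : α × σ => f p.1 p.2)) (hn : PT n) (hs : PT s) (B : Polynomial ℕ)
    (hB : ∀ a, ∀ i ≤ (n a).len, sz ((f a)^[i] (s a)) ≤ B.eval (sz a)) :
    PT (fun a => (f a)^[(n a).len] (s a)) := by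
  have key : ∀ (a : α) (x : σ) (i : ℕ),
      (fun p : α × σ => (p.1, f p.1 p.2))^[i] (a, x) = (a, (f a)^[i] x) := by
    intro a x i
    induction i with
    | zero => rfl
    | succ i ih => rw [iterate_succ_apply', ih, iterate_succ_apply']
  have h : PT (fun a => ((fun p : α × σ => (p.1, f p.1 p.2))^[(n a).len] (a, s a)).2) := by
    refine PT.snd' (PT.iterSpine ?_ hn (PT.pair PT.id hs) (1 + Polynomial.X + B) ?_)
    · exact PT.pair PT.fst hf
    · intro a i hi
      rw [key]
      simp only [sz_pair, Polynomial.eval_add, Polynomial.eval_X, Polynomial.eval_one]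
      have := hB a i hi
      omega
  refine cast (congrArg _ (funext fun a => ?_)) h
  rw [key]

theorem PT.iterate {f : α → σ → σ} {n : α → ℕ} {s : α → σ}
    (hf : PT (fun p : α × σ => f p.1 p.2)) (hn : PT n) (hs : PT s) (B : Polynomial ℕ)
    (hB : ∀ a, ∀ i ≤ n a, sz ((f a)^[i] (s a)) ≤ B.eval (sz a)) :
    PT (fun a => (f a)^[n a] (s a)) := by
  have h := PT.iterSpine' (n := fun a => Enc.enc (n a)) hf (PT.enc' hn) hs B (fun a i hi => by
    rw [len_encNat] at hi
    exact hB a i hi)
  simpa only [len_encNat] using h

theorem sz_drop_le (l : List β) (i : ℕ) : sz (l.drop i) ≤ sz l := by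
  induction l generalizing i with
  | nil => simp
  | cons b l ih =>
    cases i with
    | zero => simp
    | succ i =>
      simp only [List.drop_succ_cons, sz_cons]
      have := ih i
      omega

theorem length_le_sz (l : List β) : l.length ≤ sz l := by
  induction l with
  | nil => simp
  | cons b l ih => simp only [List.length_cons, sz_cons]; omega

theorem sz_mem_le {l : List β} {b : β} (h : b ∈ l) : sz b ≤ sz l := by
  induction l with
  | nil => simp at h
  | cons c l ih =>
    simp only [sz_cons]
    rcases List.mem_cons.1 h with h | h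
    · subst h; omega
    · have := ih h; omega

theorem sz_list_le (l : List β) (B : ℕ) (h : ∀ b ∈ l, sz b ≤ B) :
    sz l ≤ 1 + l.length * (1 + B) := by
  induction l with
  | nil => simp
  | cons c l ih =>
    have h1 := h c (by simp)
    have h2 := ih (fun b hb => h b (by simp [hb]))
    simp only [sz_cons, List.length_cons, Nat.succ_mul]
    omega

/-- Left folds. -/
theorem PT.foldl {f : α → σ → β → σ} {l : α → List β} {s : α → σ}
    (hf : PT (fun p : α × σ × β => f p.1 p.2.1 p.2.2)) (hl : PT l) (hs : PT s)
    (B : Polynomial ℕ)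
    (hB : ∀ a, ∀ i ≤ (l a).length, sz (((l a).take i).foldl (f a) (s a)) ≤ B.eval (sz a)) :
    PT (fun a => (l a).foldl (f a) (s a)) := by
  set step : α → List β × σ → List β × σ := fun a x =>
    List.rec (motive := fun _ => List β × σ) ([], x.2) (fun b t _ => (t, f a x.2 b)) x.1
    with hstep
  have key : ∀ (a : α) (i : ℕ) (l : List β) (x : σ), i ≤ l.length →
      (step a)^[i] (l, x) = (l.drop i, (l.take i).foldl (f a) x) := by
    intro a i
    induction i with
    | zero => intro l x _; simp
    | succ i ih =>
      intro l x hi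
      cases l with
      | nil => simp at hi
      | cons b l =>
        rw [iterate_succ_apply]
        have : step a (b :: l, x) = (l, f a x b) := rfl
        rw [this, ih l (f a x b) (by simpa using hi)]
        simp
  obtain ⟨R, hR⟩ := hl.size_le
  have h : PT (fun a => ((step a)^[(Enc.enc (l a)).len] (l a, s a)).2) := by
    refine PT.snd' (PT.iterSpine' ?_ (PT.enc' hl) (PT.pair hl hs) (1 + R + B) ?_)
    · exact PT.listCases (l := fun p : α × List β × σ => p.2.1)
        (g := fun p : α × List β × σ => ([], p.2.2))
        (h := fun p b t => (t, f p.1 p.2.2 b))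
        (by fun_prop) (by fun_prop) (by
          refine PT.pair (by fun_prop) ?_
          exact hf.comp (f := fun p : (α × List β × σ) × β × List β =>
            (p.1.1, p.1.2.2, p.2.1)) (by fun_prop))
    · intro a i hi
      rw [len_encList] at hi
      rw [key a i _ _ hi]
      simp only [sz_pair, Polynomial.eval_add, Polynomial.eval_one]
      have h1 := hB a i hi
      have h2 := sz_drop_le (l a) i
      have h3 := hR a
      omega
  refine cast (congrArg _ (funext fun a => ?_)) h
  rw [len_encList, key _ _ _ _ le_rfl]
  simp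

theorem sz_reverseAux (l m : List β) :
    sz (l.foldl (fun s b => b :: s) m) + 1 = sz l + sz m := by
  induction l generalizing m with
  | nil => simp; omega
  | cons b l ih =>
    simp only [List.foldl_cons, sz_cons]
    have := ih (b :: m)
    simp only [sz_cons] at this
    omega

theorem sz_take_le (l : List β) (i : ℕ) : sz (l.take i) ≤ sz l := by
  induction l generalizing i with
  | nil => simp
  | cons b l ih =>
    cases i with
    | zero => simp; omega
    | succ i =>
      simp only [List.take_succ_cons, sz_cons]
      have := ih i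
      omega

@[fun_prop]
theorem PT.reverse {l : α → List β} (hl : PT l) : PT (fun a => (l a).reverse) := by
  obtain ⟨R, hR⟩ := hl.size_le
  have h : PT (fun a => (l a).foldl (fun s b => b :: s) []) := by
    refine PT.foldl (f := fun _ s b => b :: s) (by fun_prop) hl (by fun_prop) R ?_
    intro a i _
    have h1 := sz_reverseAux ((l a).take i) []
    simp only [sz_nil] at h1
    have h2 := sz_take_le (l a) i
    have h3 := hR a
    omega
  refine cast (congrArg _ (funext fun a => ?_)) h
  rw [List.foldl_flip_cons_eq_append]
  simp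


omit [Enc β] [Enc γ] in
theorem foldl_map_cons (f : β → γ) (l : List β) (m : List γ) :
    l.foldl (fun s b => f b :: s) m = (l.map f).reverse ++ m := by
  induction l generalizing m with
  | nil => simp
  | cons b l ih => simp [ih]

theorem sz_reverse (l : List β) : sz l.reverse = sz l := by
  have h1 := sz_reverseAux l []
  rw [List.foldl_flip_cons_eq_append] at h1
  simp at h1
  omega

theorem PT.map {f : α → β → γ} {l : α → List β} (hf : PT (fun p : α × β => f p.1 p.2))
    (hl : PT l) : PT (fun a => (l a).map (f a)) := by
  obtain ⟨R, hR⟩ := hl.size_le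
  obtain ⟨Q, hQ⟩ := hf.size_le
  have h : PT (fun a => ((l a).foldl (fun s b => f a b :: s) []).reverse) := by
    refine PT.reverse (PT.foldl (f := fun a s b => f a b :: s) ?_ hl (by fun_prop)
      (1 + R * (1 + Q.comp (1 + Polynomial.X + R))) ?_)
    · refine PT.consList ?_ (by fun_prop)
      exact hf.comp (f := fun p : α × List γ × β => (p.1, p.2.2)) (by fun_prop)
    · intro a i _
      rw [foldl_map_cons, List.append_nil, sz_reverse]
      refine (sz_list_le _ (Q.eval (1 + sz a + R.eval (sz a))) ?_).trans ?_
      · intro c hc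
        obtain ⟨b, hb, rfl⟩ := List.mem_map.1 hc
        refine (hQ (a, b)).trans (eval_mono Q ?_)
        simp only [sz_pair]
        have h1 := sz_mem_le (List.mem_of_mem_take hb)
        have h2 := hR a
        omega
      · simp only [Polynomial.eval_add, Polynomial.eval_one, Polynomial.eval_mul,
          Polynomial.eval_comp, Polynomial.eval_X, List.length_map]
        refine Nat.add_le_add_left (Nat.mul_le_mul_right _ ?_) _
        have h1 := length_le_sz (l a)
        have h2 := hR a
        have h3 := List.length_take_le i (l a)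
        omega
  refine cast (congrArg _ (funext fun a => ?_)) h
  rw [foldl_map_cons]
  simp

end Pool.Agent.H79.Cx
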