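import Pool.Agent.H79.PT.Data

/-!
Encodings of types by trees, polynomial-time functions, closure under composition, pairing,
branching and iteration.
-/

namespace Pool.Agent.H79.Cx

open Function

/-- Encodings by trees. -/
class Enc (α : Type) where
  /-- the encoding -/
  enc : α → D

/-- The size of the encoding. -/
def sz {α : Type} [Enc α] (x : α) : ℕ := (Enc.enc x).size

/-- The code of `x`. -/
def cd {α : Type} [Enc α] (x : α) : List Bool := (Enc.enc x).enc

theorem sz_pos {α : Type} [Enc α] (x : α) : 0 < sz x := D.size_pos _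

theorem length_cd {α : Type} [Enc α] (x : α) : (cd x).length = sz x := D.length_enc _

instance : Enc D := ⟨id⟩
instance : Enc Unit := ⟨fun _ => D.nil⟩
instance : Enc Bool := ⟨fun b => if b then D.cons D.nil D.nil else D.nil⟩
instance {α β : Type} [Enc α] [Enc β] : Enc (α × β) := ⟨fun x => D.cons (Enc.enc x.1) (Enc.enc x.2)⟩

/-- Encoding of lists. -/
def encList {α : Type} [Enc α] : List α → D
  | [] => D.nil
  | a :: l => D.cons (Enc.enc a) (encList l)

instance {α : Type} [Enc α] : Enc (List α) := ⟨encList⟩

/-- Encoding of natural numbers in unary. -/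
def encNat : ℕ → D
  | 0 => D.nil
  | n + 1 => D.cons D.nil (encNat n)

instance : Enc ℕ := ⟨encNat⟩

/-- Encoding of options. -/
def encOpt {α : Type} [Enc α] : Option α → D
  | none => D.nil
  | some a => D.cons (Enc.enc a) D.nil

instance {α : Type} [Enc α] : Enc (Option α) := ⟨encOpt⟩

section sizes
variable {α β : Type} [Enc α] [Enc β]

@[simp] theorem sz_pair (x : α × β) : sz x = 1 + sz x.1 + sz x.2 := rfl
@[simp] theorem sz_nil : sz ([] : List α) = 1 := rfl
@[simp] theorem sz_cons (a : α) (l : List α) : sz (a :: l) = 1 + sz a + sz l := rfl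
@[simp] theorem sz_unit (x : Unit) : sz x = 1 := rfl
@[simp] theorem sz_D (x : D) : sz x = x.size := rfl
theorem sz_bool_le (b : Bool) : sz b ≤ 3 := by cases b <;> simp [sz, Enc.enc]
theorem sz_nat (n : ℕ) : sz n = 2 * n + 1 := by
  induction n with
  | zero => rfl
  | succ n ih =>
    have : sz (n + 1) = 1 + 1 + sz n := rfl
    omega
@[simp] theorem sz_none : sz (none : Option α) = 1 := rfl
@[simp] theorem sz_some (a : α) : sz (some a) = 2 + sz a := by
  change 1 + sz a + 1 = 2 + sz a
  omega

@[simp] theorem enc_pair (x : α × β) : Enc.enc x = D.cons (Enc.enc x.1) (Enc.enc x.2) := rfl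
@[simp] theorem enc_nil' : Enc.enc ([] : List α) = D.nil := rfl
@[simp] theorem enc_cons' (a : α) (l : List α) :
    Enc.enc (a :: l) = D.cons (Enc.enc a) (Enc.enc l) := rfl

theorem len_encList (l : List α) : (Enc.enc l).len = l.length := by
  induction l with
  | nil => rfl
  | cons a l ih => simp only [enc_cons', D.len, ih, List.length_cons]

theorem len_encNat (n : ℕ) : (Enc.enc n).len = n := by
  induction n with
  | zero => rfl
  | succ n ih =>
    change (encNat (n + 1)).len = n + 1
    simp only [encNat, D.len]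
    exact congrArg (· + 1) ih

end sizes

theorem eval_mono (P : Polynomial ℕ) {m n : ℕ} (h : m ≤ n) : P.eval m ≤ P.eval n := by
  rw [Polynomial.eval_eq_sum_range, Polynomial.eval_eq_sum_range]
  exact Finset.sum_le_sum fun i _ => Nat.mul_le_mul_left _ (Nat.pow_le_pow_left h i)

/-- Polynomial-time computability of a function between encoded types. -/
structure PT {α β : Type} [Enc α] [Enc β] (f : α → β) : Prop where
  /-- the program and the time bound -/
  ex : ∃ (p : Prog) (P : Polynomial ℕ), ∀ (x : α) (r : List Bool),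
    RunLe p (st (cd x ++ r) [] [] []) (st (cd (f x) ++ r) [] [] []) (P.eval (sz x))

section
variable {α β γ δ : Type} [Enc α] [Enc β] [Enc γ] [Enc δ]

/-- The no-op program. -/
def skip : Prog := .seq (.push .v true) (.pop .v)

theorem run_skip (v : List Bool) : RunLe skip (st v [] [] []) (st v [] [] []) 2 := by
  have h1 := RunLe.push .v true (st v [] [] [])
  simp only [st_v, update_v] at h1
  have h2 := RunLe.pop .v (st (true :: v) [] [] [])
  simp only [st_v, update_v, List.tail_cons] at h2
  exact RunLe.seq h1 h2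

theorem size_le_of_run {p : Prog} {x y : D} {n : ℕ}
    (h : RunLe p (st (x.enc ++ []) [] [] []) (st (y.enc ++ []) [] [] []) n) :
    y.size ≤ x.size + n := by
  have := h.total_le
  simpa [total, D.length_enc] using this

theorem PT.size_le {f : α → β} (hf : PT f) :
    ∃ Q : Polynomial ℕ, ∀ x, sz (f x) ≤ Q.eval (sz x) := by
  obtain ⟨p, P, h⟩ := hf
  refine ⟨Polynomial.X + P, fun x => ?_⟩
  have := size_le_of_run (h x [])
  simpa [sz] using this

theorem PT.id : PT (fun x : α => x) :=
  ⟨skip, 2, fun x r => by simpa using run_skip (cd x ++ r)⟩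

/-- Functions acting trivially on the encodings. -/
theorem PT.of_enc_eq {f : α → β} (h : ∀ x, Enc.enc (f x) = Enc.enc x) : PT f :=
  ⟨skip, 2, fun x r => by
    have e : cd (f x) = cd x := congrArg D.enc (h x)
    rw [e]
    simpa using run_skip (cd x ++ r)⟩

theorem PT.comp {g : β → γ} {f : α → β} (hg : PT g) (hf : PT f) : PT (fun x => g (f x)) := by
  obtain ⟨Q', hQ'⟩ := hf.size_le
  obtain ⟨p, P, hp⟩ := hf
  obtain ⟨q, Q, hq⟩ := hg
  refine ⟨.seq p q, P + Q.comp Q', fun x r => ?_⟩
  refine (RunLe.seq (hp x r) (hq (f x) r)).mono ?_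
  simp only [Polynomial.eval_add, Polynomial.eval_comp]
  exact Nat.add_le_add_left (eval_mono Q (hQ' x)) _

/-- Pushing a constant code. -/
def pushL : List Bool → Prog
  | [] => skip
  | b :: l => .seq (pushL l) (.push .v b)

theorem run_pushL (l v : List Bool) :
    RunLe (pushL l) (st v [] [] []) (st (l ++ v) [] [] []) (l.length + 2) := by
  induction l with
  | nil => exact run_skip v
  | cons b l ih =>
    have h1 := RunLe.push .v b (st (l ++ v) [] [] [])
    simp only [st_v, update_v] at h1
    exact (RunLe.seq ih h1).mono (by simp only [List.length_cons]; omega)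

theorem PT.const (b : β) : PT (fun _ : α => b) := by
  refine ⟨.seq drop (pushL (cd b)), 5 * Polynomial.X + Polynomial.C (4 + (cd b).length),
    fun x r => ?_⟩
  refine (RunLe.seq (run_drop (Enc.enc x) r [] []) (run_pushL (cd b) r)).mono ?_
  simp [sz]
  omega

theorem PT.fst : PT (fun x : α × β => x.1) := by
  refine ⟨.seq (.pop .v) (.seq swap drop), 14 * Polynomial.X + 9, fun x r => ?_⟩
  have h1 := RunLe.pop .v (st (cd x ++ r) [] [] [])
  simp only [st_v, update_v] at h1
  have e : (cd x ++ r).tail = (Enc.enc x.1).enc ++ ((Enc.enc x.2).enc ++ r) := by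
    simp [cd]
  rw [e] at h1
  have h2 := run_swap (Enc.enc x.1) (Enc.enc x.2) r
  have h3 := run_drop (Enc.enc x.2) ((Enc.enc x.1).enc ++ r) [] []
  refine (RunLe.seq h1 (RunLe.seq h2 h3)).mono ?_
  simp [sz]
  omega

theorem PT.snd : PT (fun x : α × β => x.2) := by
  refine ⟨.seq (.pop .v) drop, 5 * Polynomial.X + 3, fun x r => ?_⟩
  have h1 := RunLe.pop .v (st (cd x ++ r) [] [] [])
  simp only [st_v, update_v] at h1
  have e : (cd x ++ r).tail = (Enc.enc x.1).enc ++ ((Enc.enc x.2).enc ++ r) := by
    simp [cd]
  rw [e] at h1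
  have h3 := run_drop (Enc.enc x.1) ((Enc.enc x.2).enc ++ r) [] []
  refine (RunLe.seq h1 h3).mono ?_
  simp [sz]
  omega

theorem PT.pair {f : α → β} {g : α → γ} (hf : PT f) (hg : PT g) : PT (fun x => (f x, g x)) := by
  obtain ⟨F, hF⟩ := hf.size_le
  obtain ⟨G, hG⟩ := hg.size_le
  obtain ⟨p, P, hp⟩ := hf
  obtain ⟨q, Q, hq⟩ := hg
  refine ⟨.seq dup (.seq q (.seq swap (.seq p (.push .v true)))),
    18 * Polynomial.X + Q + 9 * G + 9 * Polynomial.X + P + 12, fun x r => ?_⟩
  have h1 := run_dup (Enc.enc x) r
  have h2 := hq x ((Enc.enc x).enc ++ r)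
  have h3 := run_swap (Enc.enc (g x)) (Enc.enc x) r
  have h4 := hp x ((Enc.enc (g x)).enc ++ r)
  have h5 := RunLe.push .v true (st (cd (f x) ++ ((Enc.enc (g x)).enc ++ r)) [] [] [])
  simp only [st_v, update_v] at h5
  have h := RunLe.seq h1 (RunLe.seq h2 (RunLe.seq h3 (RunLe.seq h4 h5)))
  have e : cd (f x, g x) ++ r = true :: (cd (f x) ++ ((Enc.enc (g x)).enc ++ r)) := by
    simp [cd]
  rw [e]
  refine h.mono ?_
  have h6 := hG x
  simp only [sz] at h6 ⊢
  simp only [Polynomial.eval_add, Polynomial.eval_mul, Polynomial.eval_X, Polynomial.eval_ofNat]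
  omega

theorem PT.ite {c : α → Bool} {f g : α → β} (hc : PT c) (hf : PT f) (hg : PT g) :
    PT (fun x => if c x = true then f x else g x) := by
  obtain ⟨r, R, hr⟩ := hc
  obtain ⟨p, P, hp⟩ := hf
  obtain ⟨q, Q, hq⟩ := hg
  refine ⟨.seq dup (.seq r (.ite .v isT (.seq (.pop .v) (.seq (.pop .v) (.seq (.pop .v) p)))
    (.seq (.pop .v) q))), 18 * Polynomial.X + R + P + Q + 20, fun x l => ?_⟩
  have h1 := run_dup (Enc.enc x) l
  have h2 := hr x ((Enc.enc x).enc ++ l)
  cases hcx : c x with
  | true =>
    have e : cd true = [true, false, false] := rfl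
    rw [hcx, e] at h2
    have h3 := RunLe.pop .v (st ([true, false, false] ++ ((Enc.enc x).enc ++ l)) [] [] [])
    simp only [st_v, update_v, List.cons_append, List.nil_append, List.tail_cons] at h3
    have h4 := RunLe.pop .v (st (false :: false :: ((Enc.enc x).enc ++ l)) [] [] [])
    simp only [st_v, update_v, List.tail_cons] at h4
    have h5 := RunLe.pop .v (st (false :: ((Enc.enc x).enc ++ l)) [] [] [])
    simp only [st_v, update_v, List.tail_cons] at h5
    have h6 := hp x l
    have h := RunLe.seq h1 (RunLe.seq h2 (RunLe.iteT (k := .v) (t := isT)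
      (q := .seq (.pop .v) q) (by simp) (RunLe.seq h3 (RunLe.seq h4 (RunLe.seq h5 h6)))))
    have e' : (if true = true then f x else g x) = f x := if_pos rfl
    rw [e']
    refine h.mono ?_
    simp only [sz]
    simp only [Polynomial.eval_add, Polynomial.eval_mul, Polynomial.eval_X, Polynomial.eval_ofNat]
    omega
  | false =>
    have e : cd false = [false] := rfl
    rw [hcx, e] at h2
    have h3 := RunLe.pop .v (st ([false] ++ ((Enc.enc x).enc ++ l)) [] [] [])
    simp only [st_v, update_v, List.cons_append, List.nil_append, List.tail_cons] at h3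
    have h6 := hq x l
    have h := RunLe.seq h1 (RunLe.seq h2 (RunLe.iteF (k := .v) (t := isT)
      (p := (.seq (.pop .v) (.seq (.pop .v) (.seq (.pop .v) p)))) (by simp) (RunLe.seq h3 h6)))
    have e' : (if false = true then f x else g x) = g x := if_neg (by simp)
    rw [e']
    refine h.mono ?_
    simp only [sz]
    simp only [Polynomial.eval_add, Polynomial.eval_mul, Polynomial.eval_X, Polynomial.eval_ofNat]
    omega

/-- Case distinction on whether a tree is `nil`. -/
def isCons : D → Bool
  | .nil => false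
  | .cons _ _ => true

theorem PT.isCons : PT isCons := by
  refine ⟨.ite .v isT (.seq drop (.seq (.push .v false) (.seq (.push .v false) (.push .v true))))
    skip, 5 * Polynomial.X + 10, fun x r => ?_⟩
  cases x with
  | nil =>
    refine (RunLe.iteF (by simp [cd, Enc.enc]) (run_skip _)).mono (by simp)
  | cons x y =>
    have h1 := run_drop (D.cons x y) r [] []
    have h2 := RunLe.push .v false (st r [] [] [])
    simp only [st_v, update_v] at h2
    have h3 := RunLe.push .v false (st (false :: r) [] [] [])
    simp only [st_v, update_v] at h3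
    have h4 := RunLe.push .v true (st (false :: false :: r) [] [] [])
    simp only [st_v, update_v] at h4
    have h := RunLe.iteT (k := .v) (t := isT) (q := skip) (by simp)
      (RunLe.seq h1 (RunLe.seq h2 (RunLe.seq h3 h4)))
    exact h.mono (by simp; omega)

theorem PT.car : PT D.car := by
  refine ⟨.ite .v isT (.seq (.pop .v) (.seq swap drop)) skip, 14 * Polynomial.X + 12,
    fun x r => ?_⟩
  cases x with
  | nil =>
    refine (RunLe.iteF (by simp [cd, Enc.enc]) (run_skip _)).mono (by simp)
  | cons x y =>
    have h1 := RunLe.pop .v (st ((D.cons x y).enc ++ r) [] [] [])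
    simp only [st_v, update_v] at h1
    have e : ((D.cons x y).enc ++ r).tail = x.enc ++ (y.enc ++ r) := by
      simp
    rw [e] at h1
    have h2 := run_swap x y r
    have h3 := run_drop y (x.enc ++ r) [] []
    have h := RunLe.iteT (k := .v) (t := isT) (q := skip) (by simp)
      (RunLe.seq h1 (RunLe.seq h2 h3))
    exact h.mono (by simp; omega)

theorem PT.cdr : PT D.cdr := by
  refine ⟨.ite .v isT (.seq (.pop .v) drop) skip, 5 * Polynomial.X + 12,
    fun x r => ?_⟩
  cases x with
  | nil =>
    refine (RunLe.iteF (by simp [cd, Enc.enc]) (run_skip _)).mono (by simp)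
  | cons x y =>
    have h1 := RunLe.pop .v (st ((D.cons x y).enc ++ r) [] [] [])
    simp only [st_v, update_v] at h1
    have e : ((D.cons x y).enc ++ r).tail = x.enc ++ (y.enc ++ r) := by
      simp
    rw [e] at h1
    have h3 := run_drop x (y.enc ++ r) [] []
    have h := RunLe.iteT (k := .v) (t := isT) (q := skip) (by simp)
      (RunLe.seq h1 h3)
    exact h.mono (by simp; omega)

/-- Unary list of given length. -/
def unary : ℕ → D
  | 0 => D.nil
  | n + 1 => D.cons D.nil (unary n)

theorem unary_eq (n : ℕ) : unary n = Enc.enc n := by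
  induction n with
  | zero => rfl
  | succ n ih => exact congrArg _ ih

/-- Program computing the size in unary. -/
def sizeP : Prog :=
  .seq moveA (.seq (.push .v false)
    (.loop .a isS (.seq (.pop .a) (.seq (.push .v false) (.push .v true)))))

theorem run_sizeP_loop (x : List Bool) : ∀ (n : ℕ) (r : List Bool),
    RunLe (.loop .a isS (.seq (.pop .a) (.seq (.push .v false) (.push .v true))))
      (st ((unary n).enc ++ r) x [] []) (st ((unary (n + x.length)).enc ++ r) [] [] [])
      (4 * x.length + 1) := by
  induction x with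
  | nil => intro n r; exact RunLe.loopF (by simp)
  | cons y x ih =>
    intro n r
    have h1 := RunLe.pop .a (st ((unary n).enc ++ r) (y :: x) [] [])
    simp only [st_a, update_a, List.tail_cons] at h1
    have h2 := RunLe.push .v false (st ((unary n).enc ++ r) x [] [])
    simp only [st_v, update_v] at h2
    have h3 := RunLe.push .v true (st (false :: ((unary n).enc ++ r)) x [] [])
    simp only [st_v, update_v] at h3
    have h4 := ih (n + 1) r
    have e : (unary (n + 1)).enc ++ r = true :: false :: ((unary n).enc ++ r) := by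
      simp [unary]
    rw [e] at h4
    have h := RunLe.loopT (k := .a) (t := isS) (by simp) (RunLe.seq h1 (RunLe.seq h2 h3)) h4
    have e2 : n + (y :: x).length = n + 1 + x.length := by simp; omega
    rw [e2]
    exact h.mono (by simp only [List.length_cons]; omega)

theorem PT.size : PT (fun x : α => sz x) := by
  refine ⟨sizeP, 9 * Polynomial.X + 10, fun x r => ?_⟩
  have h1 := run_moveA (Enc.enc x) r [] []
  have h2 := RunLe.push .v false (st r ((Enc.enc x).enc.reverse ++ []) [] [])
  simp only [st_v, update_v] at h2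
  have h3 := run_sizeP_loop ((Enc.enc x).enc.reverse ++ []) 0 r
  have h := RunLe.seq h1 (RunLe.seq h2 h3)
  have e : unary (0 + ((Enc.enc x).enc.reverse ++ []).length) = Enc.enc (sz x) := by
    rw [unary_eq]
    simp [D.length_enc, sz]
  rw [e] at h
  refine h.mono ?_
  simp [sz, D.length_enc]
  omega

/-- Program iterating `p` along the spine of the first component. -/
def iterP (p : Prog) : Prog :=
  .seq (.pop .v) (.seq (.loop .v isT (.seq (.pop .v) (.seq drop (.seq swap (.seq p swap)))))
    (.pop .v))

theorem run_iterP_loop (p : Prog) (f : α → α) (T : α → ℕ)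
    (hp : ∀ x r, RunLe p (st (cd x ++ r) [] [] []) (st (cd (f x) ++ r) [] [] []) (T x)) :
    ∀ (n : D) (x : α) (B C : ℕ) (_ : ∀ i ≤ n.len, sz (f^[i] x) ≤ B)
      (_ : ∀ i ≤ n.len, T (f^[i] x) ≤ C) (r : List Bool),
    RunLe (.loop .v isT (.seq (.pop .v) (.seq drop (.seq swap (.seq p swap)))))
      (st (n.enc ++ (cd x ++ r)) [] [] []) (st (false :: (cd (f^[n.len] x) ++ r)) [] [] [])
      (n.size * (23 * n.size + 18 * B + C + 20)) := by
  intro n
  induction n with
  | nil =>
    intro x B C hB hC r
    exact (RunLe.loopF (by simp)).mono (by simp)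
  | cons y n _ ih =>
    intro x B C hB hC r
    have h0 := RunLe.pop .v (st ((D.cons y n).enc ++ (cd x ++ r)) [] [] [])
    simp only [st_v, update_v] at h0
    have e : ((D.cons y n).enc ++ (cd x ++ r)).tail = y.enc ++ (n.enc ++ (cd x ++ r)) := by
      simp
    rw [e] at h0
    have h1 := run_drop y (n.enc ++ (cd x ++ r)) [] []
    have h2 := run_swap n (Enc.enc x) r
    have h3 := hp x (n.enc ++ r)
    have h4 := run_swap (Enc.enc (f x)) n r
    have h5 := ih (f x) B C (fun i hi => by
      rw [← iterate_succ_apply]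
      exact hB (i + 1) (by simp only [D.len]; omega)) (fun i hi => by
      rw [← iterate_succ_apply]
      exact hC (i + 1) (by simp only [D.len]; omega)) r
    rw [← iterate_succ_apply] at h5
    have h := RunLe.loopT (k := .v) (t := isT) (by simp)
      (RunLe.seq h0 (RunLe.seq h1 (RunLe.seq h2 (RunLe.seq h3 h4)))) h5
    refine h.mono ?_
    have b1 : (Enc.enc x).size ≤ B := hB 0 (Nat.zero_le _)
    have b2 : (Enc.enc (f x)).size ≤ B := hB 1 (by simp only [D.len]; omega)
    have b3 : T x ≤ C := hC 0 (Nat.zero_le _)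
    have b4 := D.size_pos n
    have b5 := D.size_pos y
    have e1 : (D.cons y n).size = 1 + y.size + n.size := rfl
    rw [e1]
    have m1 : n.size * (23 * n.size + 18 * B + C + 20) ≤
        n.size * (23 * (1 + y.size + n.size) + 18 * B + C + 20) :=
      Nat.mul_le_mul_left _ (by omega)
    have m2 : 23 * (1 + y.size + n.size) + 18 * B + C + 20 ≤
        (1 + y.size) * (23 * (1 + y.size + n.size) + 18 * B + C + 20) :=
      Nat.le_mul_of_pos_left _ (by omega)
    have m3 : (1 + y.size + n.size) * (23 * (1 + y.size + n.size) + 18 * B + C + 20) =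
        (1 + y.size) * (23 * (1 + y.size + n.size) + 18 * B + C + 20) +
        n.size * (23 * (1 + y.size + n.size) + 18 * B + C + 20) := by ring
    omega

/-- Iteration along the spine of a tree, in its basic form. -/
theorem PT.iterSpine {σ : Type} [Enc σ] {f : σ → σ} {n : α → D} {s : α → σ} (hf : PT f)
    (hn : PT n) (hs : PT s) (B : Polynomial ℕ)
    (hB : ∀ a, ∀ i ≤ (n a).len, sz (f^[i] (s a)) ≤ B.eval (sz a)) :
    PT (fun a => f^[(n a).len] (s a)) := by
  obtain ⟨N, hN⟩ := hn.size_le
  obtain ⟨q, Q, hq⟩ := PT.pair hn hs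
  obtain ⟨p, P, hp⟩ := hf
  refine ⟨.seq q (iterP p), Q + (N * (23 * N + 18 * B + P.comp B + 20) + 2), fun a r => ?_⟩
  have h1 := hq a r
  have h2 := RunLe.pop .v (st (cd (n a, s a) ++ r) [] [] [])
  simp only [st_v, update_v] at h2
  have e : (cd (n a, s a) ++ r).tail = (n a).enc ++ (cd (s a) ++ r) := by
    simp [cd, Enc.enc]
  rw [e] at h2
  have h3 := run_iterP_loop p f (fun x => P.eval (sz x)) hp (n a) (s a) (B.eval (sz a))
    (P.eval (B.eval (sz a))) (hB a) (fun i hi => eval_mono P (hB a i hi)) r
  have h4 := RunLe.pop .v (st (false :: (cd (f^[(n a).len] (s a)) ++ r)) [] [] [])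
  simp only [st_v, update_v, List.tail_cons] at h4
  have h := RunLe.seq h1 (RunLe.seq h2 (RunLe.seq h3 h4))
  refine h.mono ?_
  have hNa : (n a).size ≤ N.eval (sz a) := hN a
  simp only [Polynomial.eval_add, Polynomial.eval_mul, Polynomial.eval_comp,
    Polynomial.eval_ofNat]
  have m1 : (n a).size * (23 * (n a).size + 18 * B.eval (sz a) + P.eval (B.eval (sz a)) + 20) ≤
      N.eval (sz a) * (23 * N.eval (sz a) + 18 * B.eval (sz a) + P.eval (B.eval (sz a)) + 20) :=
    Nat.mul_le_mul hNa (by omega)
  omega

end

end Pool.Agent.H79.Cx
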