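import Pool.Agent.H79.PT.IntArith

/-!
Binary integers: closure of polynomial-time functions under ring operations, comparison,
division.
-/

namespace Pool.Agent.H79.Cx

open Function

variable {α β γ δ σ : Type} [Enc α] [Enc β] [Enc γ] [Enc δ] [Enc σ]

theorem mkZ_def (s : Bool) (l : List Bool) :
    mkZ s l = if s = true then -(val l : ℤ) else val l := by
  unfold mkZ; rfl

@[fun_prop]
theorem PT.intAdd {f g : α → ℤ} (hf : PT f) (hg : PT g) : PT (fun x => f x + g x) := by
  have h : PT (fun x =>
      if (decide (f x < 0) ^^ decide (g x < 0)) = true then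
        (if (Cx.subB (f x).natAbs.bits (g x).natAbs.bits).1 = true then
          Cx.mkZ (decide (g x < 0)) (Cx.subB (g x).natAbs.bits (f x).natAbs.bits).2
         else Cx.mkZ (decide (f x < 0)) (Cx.subB (f x).natAbs.bits (g x).natAbs.bits).2)
      else Cx.mkZ (decide (f x < 0)) (Cx.addB (f x).natAbs.bits (g x).natAbs.bits)) := by
    fun_prop
  refine PT.int_congr h fun x => ?_
  obtain ⟨a1, a2⟩ := subB_spec (f x).natAbs.bits (g x).natAbs.bits
  obtain ⟨b1, b2⟩ := subB_spec (g x).natAbs.bits (f x).natAbs.bits
  rw [val_bits, val_bits] at a1 a2 b1 b2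
  rw [a1]
  simp only [mkZ_def]
  rw [val_addB, val_bits, val_bits]
  by_cases hx : f x < 0 <;> by_cases hy : g x < 0
  · simp [hx, hy, -Nat.cast_natAbs]; omega
  · by_cases hlt : (f x).natAbs < (g x).natAbs
    · rw [b2 hlt.le]; simp [hx, hy, hlt, -Nat.cast_natAbs]; omega
    · rw [a2 (not_lt.1 hlt)]; simp [hx, hy, hlt, -Nat.cast_natAbs]; omega
  · by_cases hlt : (f x).natAbs < (g x).natAbs
    · rw [b2 hlt.le]; simp [hx, hy, hlt, -Nat.cast_natAbs]; omega
    · rw [a2 (not_lt.1 hlt)]; simp [hx, hy, hlt, -Nat.cast_natAbs]; omega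
  · simp [hx, hy, -Nat.cast_natAbs]; omega

@[fun_prop]
theorem PT.intSub {f g : α → ℤ} (hf : PT f) (hg : PT g) : PT (fun x => f x - g x) := by
  have h : PT (fun x => f x + -(g x)) := by fun_prop
  exact PT.int_congr h fun x => by ring

@[fun_prop]
theorem PT.intLt {f g : α → ℤ} (hf : PT f) (hg : PT g) : PT (fun x => decide (f x < g x)) := by
  have h : PT (fun x => decide (f x - g x < 0)) := by fun_prop
  refine cast (congrArg _ (funext fun a => ?_)) h
  rw [decide_eq_decide]
  omega

@[fun_prop]
theorem PT.intLe {f g : α → ℤ} (hf : PT f) (hg : PT g) : PT (fun x => decide (f x ≤ g x)) := by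
  have h : PT (fun x => !decide (g x < f x)) := by fun_prop
  refine cast (congrArg _ (funext fun a => ?_)) h
  rw [← _root_.decide_not, decide_eq_decide]
  omega

@[fun_prop]
theorem PT.intEq {f g : α → ℤ} (hf : PT f) (hg : PT g) : PT (fun x => decide (f x = g x)) := by
  have h : PT (fun x => decide (f x ≤ g x) && decide (g x ≤ f x)) := by fun_prop
  refine cast (congrArg _ (funext fun a => ?_)) h
  rw [← Bool.decide_and, decide_eq_decide]
  omega

@[fun_prop]
theorem PT.natAbsZ {f : α → ℤ} (hf : PT f) : PT (fun x => |f x|) := by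
  have h : PT (fun x => if f x < 0 then -(f x) else f x) := by fun_prop
  refine PT.int_congr h fun x => ?_
  split_ifs with h
  · rw [abs_of_neg h]
  · rw [abs_of_nonneg (not_lt.1 h)]

/-- The number of bits of an integer. -/
def bl (z : ℤ) : ℕ := z.natAbs.size

theorem length_bits (n : ℕ) : n.bits.length = n.size := (Nat.size_eq_bits_len n).symm ▸ rfl

@[fun_prop]
theorem PT.bl {f : α → ℤ} (hf : PT f) : PT (fun x => bl (f x)) := by
  have h : PT (fun x => (f x).natAbs.bits.length) := by fun_prop
  have e : (fun x => Cx.bl (f x)) = fun x => (f x).natAbs.bits.length :=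
    funext fun x => (length_bits _).symm
  rw [e]
  exact h

theorem sz_bits_le (l : List Bool) : sz l ≤ 1 + 4 * l.length := by
  have := sz_list_le l 3 (fun b _ => sz_bool_le b)
  omega

theorem length_le_sz' (l : List Bool) : 2 * l.length + 1 ≤ sz l := by
  induction l with
  | nil => simp
  | cons b l ih =>
    have := sz_pos b
    simp only [List.length_cons, sz_cons]
    omega

theorem sz_int (z : ℤ) : sz z = 1 + sz (decide (z < 0)) + sz z.natAbs.bits := rfl

theorem sz_int_le (z : ℤ) : sz z ≤ 4 * bl z + 5 := by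
  rw [sz_int]
  have h1 := sz_bool_le (decide (z < 0))
  have h2 := sz_bits_le z.natAbs.bits
  rw [length_bits] at h2
  unfold bl
  omega

theorem bl_le_sz (z : ℤ) : bl z ≤ sz z := by
  rw [sz_int]
  have h2 := length_le_sz z.natAbs.bits
  rw [length_bits] at h2
  unfold bl
  omega

theorem bl_le_iff {z : ℤ} {n : ℕ} : bl z ≤ n ↔ |z| < 2 ^ n := by
  unfold bl
  rw [Nat.size_le, ← Int.natCast_natAbs]
  exact_mod_cast Iff.rfl

theorem abs_lt_two_pow_bl (z : ℤ) : |z| < 2 ^ bl z := bl_le_iff.1 le_rfl

theorem bl_add_le (x y : ℤ) : bl (x + y) ≤ max (bl x) (bl y) + 1 := by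
  rw [bl_le_iff]
  have h1 := abs_lt_two_pow_bl x
  have h2 := abs_lt_two_pow_bl y
  have h3 : (2 : ℤ) ^ bl x ≤ 2 ^ max (bl x) (bl y) :=
    pow_le_pow_right₀ (by norm_num) (le_max_left _ _)
  have h4 : (2 : ℤ) ^ bl y ≤ 2 ^ max (bl x) (bl y) :=
    pow_le_pow_right₀ (by norm_num) (le_max_right _ _)
  have h5 := abs_add_le x y
  rw [pow_succ]
  linarith

theorem bl_mul_le (x y : ℤ) : bl (x * y) ≤ bl x + bl y := by
  rw [bl_le_iff, abs_mul, pow_add]
  have h1 := abs_lt_two_pow_bl x
  have h2 := abs_lt_two_pow_bl y
  exact mul_lt_mul'' h1 h2 (abs_nonneg _) (abs_nonneg _)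

theorem bl_mono {x y : ℤ} (h : |x| ≤ |y|) : bl x ≤ bl y := by
  rw [bl_le_iff]
  exact h.trans_lt (abs_lt_two_pow_bl y)

@[simp] theorem bl_zero : bl 0 = 0 := by simp [bl]

theorem bl_neg (x : ℤ) : bl (-x) = bl x := by simp [bl]

theorem bl_pow_le (x : ℤ) (n : ℕ) : bl (x ^ n) ≤ n * bl x + 1 := by
  induction n with
  | zero => simp [bl]
  | succ n ih =>
    rw [pow_succ]
    have := bl_mul_le (x ^ n) x
    rw [Nat.succ_mul]
    omega

theorem bl_natCast_le (n : ℕ) : bl (n : ℤ) ≤ n := by
  rw [bl_le_iff, abs_of_nonneg (by positivity)]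
  exact_mod_cast Nat.lt_two_pow_self

/-- Multiplication of a list of bits (most significant first) and an integer. -/
theorem val_horner (l : List Bool) (y : ℤ) :
    l.reverse.foldl (fun acc b => acc + acc + (if b = true then y else 0)) 0 = val l * y := by
  induction l with
  | nil => simp
  | cons b l ih =>
    rw [List.reverse_cons, List.foldl_append, ih]
    simp only [List.foldl_cons, List.foldl_nil, val_cons]
    cases b <;> simp [bv] <;> ring

theorem val_drop_le (l : List Bool) (i : ℕ) : val (l.drop i) ≤ val l := by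
  induction l generalizing i with
  | nil => simp
  | cons b l ih =>
    cases i with
    | zero => simp
    | succ i =>
      simp only [List.drop_succ_cons, val_cons]
      have := ih i
      omega

theorem take_reverse' (l : List Bool) (i : ℕ) :
    l.reverse.take i = (l.drop (l.length - i)).reverse := List.take_reverse

@[fun_prop]
theorem PT.intMul {f g : α → ℤ} (hf : PT f) (hg : PT g) : PT (fun x => f x * g x) := by
  obtain ⟨F, hF⟩ := hf.size_le
  obtain ⟨G, hG⟩ := hg.size_le
  have h1 : PT (fun x => (f x).natAbs.bits.reverse.foldl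
      (fun acc b => acc + acc + (if b = true then g x else 0)) (0 : ℤ)) := by
    refine PT.foldl (f := fun x acc b => acc + acc + (if b = true then g x else 0))
      (by fun_prop) (by fun_prop) (by fun_prop) (4 * (F + G) + 5) ?_
    intro a i _
    rw [take_reverse', val_horner]
    refine (sz_int_le _).trans ?_
    have e1 := val_drop_le (f a).natAbs.bits ((f a).natAbs.bits.length - i)
    rw [val_bits] at e1
    have e2 : Cx.bl ((val ((f a).natAbs.bits.drop ((f a).natAbs.bits.length - i)) : ℤ) * g a) ≤
        Cx.bl (f a * g a) := by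
      apply bl_mono
      rw [abs_mul, abs_mul]
      refine mul_le_mul_of_nonneg_right ?_ (abs_nonneg _)
      rw [abs_of_nonneg (by positivity), ← Int.natCast_natAbs]
      exact_mod_cast e1
    have e3 := bl_mul_le (f a) (g a)
    have e4 := bl_le_sz (f a)
    have e5 := bl_le_sz (g a)
    have e6 := hF a
    have e7 := hG a
    simp only [Polynomial.eval_add, Polynomial.eval_mul, Polynomial.eval_ofNat]
    omega
  have h2 : PT (fun x => if f x < 0 then -((f x).natAbs.bits.reverse.foldl
      (fun acc b => acc + acc + (if b = true then g x else 0)) (0 : ℤ)) else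
      ((f x).natAbs.bits.reverse.foldl
      (fun acc b => acc + acc + (if b = true then g x else 0)) (0 : ℤ))) := by fun_prop
  refine PT.int_congr h2 fun x => ?_
  rw [val_horner, val_bits]
  split_ifs with h
  · have : ((f x).natAbs : ℤ) = -(f x) := by omega
    rw [this]; ring
  · have : ((f x).natAbs : ℤ) = f x := by omega
    rw [this]

@[fun_prop]
theorem PT.intPow {f : α → ℤ} {n : α → ℕ} (hf : PT f) (hn : PT n) :
    PT (fun x => f x ^ n x) := by
  obtain ⟨F, hF⟩ := hf.size_le
  obtain ⟨N, hN⟩ := hn.size_le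
  have key : ∀ (y : ℤ) (i : ℕ), (fun z : ℤ => z * y)^[i] 1 = y ^ i := by
    intro y i
    induction i with
    | zero => simp
    | succ i ih => rw [iterate_succ_apply', ih, pow_succ]
  have h : PT (fun x => (fun z : ℤ => z * f x)^[n x] 1) := by
    refine PT.iterate (f := fun x z => z * f x) (by fun_prop) hn (by fun_prop)
      (4 * (N * F + 1) + 5) ?_
    intro a i hi
    rw [key]
    refine (sz_int_le _).trans ?_
    have e1 := bl_pow_le (f a) i
    have e2 := bl_le_sz (f a)
    have e3 := hF a
    have e4 := hN a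
    rw [sz_nat] at e4
    have e5 : i * Cx.bl (f a) ≤ N.eval (sz a) * F.eval (sz a) :=
      Nat.mul_le_mul (by omega) (by omega)
    simp only [Polynomial.eval_add, Polynomial.eval_mul, Polynomial.eval_ofNat,
      Polynomial.eval_one]
    omega
  exact PT.int_congr h fun x => key _ _

@[fun_prop]
theorem PT.intCast {n : α → ℕ} (hn : PT n) : PT (fun x => (n x : ℤ)) := by
  obtain ⟨N, hN⟩ := hn.size_le
  have key : ∀ (i : ℕ), (fun z : ℤ => z + 1)^[i] 0 = i := by
    intro i
    induction i with
    | zero => simp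
    | succ i ih => rw [iterate_succ_apply', ih]; simp
  have h : PT (fun x => (fun z : ℤ => z + 1)^[n x] 0) := by
    refine PT.iterate (f := fun x z => z + 1) (by fun_prop) hn (by fun_prop)
      (4 * N + 5) ?_
    intro a i hi
    rw [key]
    refine (sz_int_le _).trans ?_
    have e1 := bl_natCast_le i
    have e4 := hN a
    rw [sz_nat] at e4
    simp only [Polynomial.eval_add, Polynomial.eval_mul, Polynomial.eval_ofNat]
    omega
  exact PT.int_congr h fun x => key _

theorem bl_sum_le (l : List ℤ) (B : ℕ) (h : ∀ z ∈ l, bl z ≤ B) : bl l.sum ≤ B + l.length := by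
  have key : |l.sum| ≤ l.length * 2 ^ B := by
    induction l with
    | nil => simp
    | cons a l ih =>
      have h1 := ih (fun z hz => h z (by simp [hz]))
      have h2 := bl_le_iff.1 (h a (by simp))
      rw [List.sum_cons, List.length_cons]
      push_cast
      have := abs_add_le a l.sum
      linarith
  rw [bl_le_iff]
  calc |l.sum| ≤ l.length * 2 ^ B := key
    _ < 2 ^ l.length * 2 ^ B := by
        refine mul_lt_mul_of_pos_right ?_ (by positivity)
        exact_mod_cast Nat.lt_two_pow_self
    _ = 2 ^ (B + l.length) := by rw [pow_add, mul_comm]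

theorem foldl_add_eq (l : List ℤ) (x : ℤ) : l.foldl (fun s z => s + z) x = x + l.sum := by
  induction l generalizing x with
  | nil => simp
  | cons a l ih => rw [List.foldl_cons, ih, List.sum_cons]; ring

@[fun_prop]
theorem PT.listSum {l : α → List ℤ} (hl : PT l) : PT (fun x => (l x).sum) := by
  obtain ⟨R, hR⟩ := hl.size_le
  have h : PT (fun x => (l x).foldl (fun s z => s + z) 0) := by
    refine PT.foldl (f := fun _ s z => s + z) (by fun_prop) hl (by fun_prop)
      (8 * R + 5) ?_
    intro a i hi
    rw [foldl_add_eq, zero_add]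
    refine (sz_int_le _).trans ?_
    have h1 := bl_sum_le ((l a).take i) (sz (l a)) (fun z hz =>
      (bl_le_sz z).trans (sz_mem_le (List.mem_of_mem_take hz)))
    have h2 := List.length_take_le i (l a)
    have h3 := length_le_sz (l a)
    have h4 := hR a
    simp only [Polynomial.eval_add, Polynomial.eval_mul, Polynomial.eval_ofNat]
    omega
  exact PT.int_congr h fun x => by rw [foldl_add_eq, zero_add]

theorem sum_tab (n : ℕ) (f : ℕ → ℤ) : (tab n f).sum = ∑ i ∈ Finset.range n, f i := by
  unfold tab
  rw [Finset.sum_range]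
  induction n with
  | zero => simp
  | succ n ih => rw [List.range_succ, List.map_append, List.sum_append, ih, Fin.sum_univ_castSucc]
                 simp

@[fun_prop]
theorem PT.rangeSum {f : α → ℕ → ℤ} {n : α → ℕ} (hf : PT (fun p : α × ℕ => f p.1 p.2))
    (hn : PT n) : PT (fun x => ∑ i ∈ Finset.range (n x), f x i) := by
  have h : PT (fun x => (Cx.tab (n x) (f x)).sum) := by fun_prop
  exact PT.int_congr h fun x => sum_tab _ _

/-- Long division of a list of bits (least significant first) by a positive integer. -/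
def divStep (y : ℤ) (s : ℤ × ℤ) (b : Bool) : ℤ × ℤ :=
  if 0 < y then
    (if y ≤ s.2 + s.2 + (if b = true then 1 else 0) then
      (s.1 + s.1 + 1, s.2 + s.2 + (if b = true then 1 else 0) - y)
    else (s.1 + s.1, s.2 + s.2 + (if b = true then 1 else 0)))
  else (0, 0)

theorem divStep_inv (y : ℤ) (hy : 0 < y) (l : List Bool) :
    let r := l.reverse.foldl (divStep y) (0, 0)
    (val l : ℤ) = r.1 * y + r.2 ∧ 0 ≤ r.1 ∧ 0 ≤ r.2 ∧ r.2 < y := by
  induction l with
  | nil => simp [hy]
  | cons b l ih =>
    simp only at ih ⊢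
    rw [List.reverse_cons, List.foldl_append]
    revert ih
    generalize l.reverse.foldl (divStep y) (0, 0) = r
    rintro ⟨h1, h2, h3, h4⟩
    simp only [List.foldl_cons, List.foldl_nil, divStep, if_pos hy, val_cons]
    push_cast
    rw [h1]
    have hb : (if b = true then (1 : ℤ) else 0) = bv b := by cases b <;> simp [bv]
    have hb1 : (bv b : ℤ) ≤ 1 := by cases b <;> simp [bv]
    have hb0 : (0 : ℤ) ≤ bv b := by positivity
    rw [hb]
    split_ifs with h
    · refine ⟨by ring, by omega, by omega, by omega⟩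
    · refine ⟨by ring, by omega, by omega, by omega⟩

theorem divStep_nonpos (y : ℤ) (hy : ¬ 0 < y) (l : List Bool) :
    l.foldl (divStep y) (0, 0) = (0, 0) := by
  induction l with
  | nil => rfl
  | cons b l ih => rw [List.foldl_cons]; simp only [divStep, if_neg hy]; exact ih

/-- Quotient of the magnitude of `x` by `y`. -/
def divN (x y : ℤ) : ℤ := (x.natAbs.bits.reverse.foldl (divStep y) (0, 0)).1

theorem divN_eq {x y : ℤ} (hx : 0 ≤ x) (hy : 0 < y) : divN x y = x / y := by
  have h := divStep_inv y hy x.natAbs.bits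
  rw [val_bits] at h
  have e : (x.natAbs : ℤ) = x := by omega
  rw [e] at h
  unfold divN
  revert h
  generalize x.natAbs.bits.reverse.foldl (divStep y) (0, 0) = r
  rintro ⟨h1, h2, h3, h4⟩
  symm
  rw [h1, add_comm, Int.add_mul_ediv_right _ _ hy.ne', Int.ediv_eq_zero_of_lt h3 h4, zero_add]

@[fun_prop]
theorem PT.divN {f g : α → ℤ} (hf : PT f) (hg : PT g) : PT (fun x => divN (f x) (g x)) := by
  obtain ⟨F, hF⟩ := hf.size_le
  obtain ⟨G, hG⟩ := hg.size_le
  unfold Cx.divN
  refine PT.fst' ?_
  refine PT.foldl (f := fun x s b => divStep (g x) s b) (by unfold divStep; fun_prop)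
    (by fun_prop) (by fun_prop) (4 * F + 4 * G + 11) ?_
  intro a i _
  rw [take_reverse']
  by_cases hy : 0 < g a
  · have h := divStep_inv (g a) hy
      ((f a).natAbs.bits.drop ((f a).natAbs.bits.length - i))
    have e1 := val_drop_le (f a).natAbs.bits ((f a).natAbs.bits.length - i)
    rw [val_bits] at e1
    simp only at h
    change sz (List.foldl (divStep (g a)) (0, 0)
      ((f a).natAbs.bits.drop ((f a).natAbs.bits.length - i)).reverse) ≤ _
    revert h
    generalize List.foldl (divStep (g a)) (0, 0)
      ((f a).natAbs.bits.drop ((f a).natAbs.bits.length - i)).reverse = r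
    rintro ⟨h1, h2, h3, h4⟩
    have e2 : r.1 ≤ |f a| := by
      rw [← Int.natCast_natAbs]
      have : (val ((f a).natAbs.bits.drop ((f a).natAbs.bits.length - i)) : ℤ) ≤
        (f a).natAbs := by exact_mod_cast e1
      change _ = r.1 * g a + r.2 at h1
      nlinarith
    have e3 : Cx.bl r.1 ≤ Cx.bl (f a) := bl_mono (by rw [abs_of_nonneg h2]; exact e2)
    have e4 : Cx.bl r.2 ≤ Cx.bl (g a) := bl_mono (by
      rw [abs_of_nonneg h3, abs_of_pos hy]; exact h4.le)
    have e5 := sz_int_le r.1
    have e6 := sz_int_le r.2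
    have e7 := bl_le_sz (f a)
    have e8 := bl_le_sz (g a)
    have e9 := hF a
    have e10 := hG a
    simp only [sz_pair, Polynomial.eval_add, Polynomial.eval_mul, Polynomial.eval_ofNat]
    omega
  · have : List.foldl (fun s b => divStep (g a) s b) (0, 0)
      ((f a).natAbs.bits.drop ((f a).natAbs.bits.length - i)).reverse = (0, 0) :=
      divStep_nonpos _ hy _
    rw [this]
    have e5 := sz_int_le 0
    rw [bl_zero] at e5
    simp only [sz_pair, Polynomial.eval_add, Polynomial.eval_mul, Polynomial.eval_ofNat]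
    omega

@[fun_prop]
theorem PT.intDiv {f g : α → ℤ} (hf : PT f) (hg : PT g) : PT (fun x => f x / g x) := by
  have h : PT (fun x => if g x = 0 then 0 else
      if 0 < g x then (if f x < 0 then -(Cx.divN (-(f x) + g x - 1) (g x))
        else Cx.divN (f x) (g x))
      else (if f x < 0 then Cx.divN (-(f x) - g x - 1) (-(g x))
        else -(Cx.divN (f x) (-(g x))))) := by fun_prop
  refine PT.int_congr h fun x => ?_
  have key : ∀ a b : ℤ, a < 0 → 0 < b → -((-a + b - 1) / b) = a / b := by
    intro a b ha hb
    have h1 := Int.emod_add_mul_ediv a b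
    have h2 := Int.emod_nonneg a hb.ne'
    have h3 := Int.emod_lt_of_pos a hb
    have h4 : (-a + b - 1) / b = -(a / b) := by
      rw [Int.ediv_eq_iff_of_pos hb]
      constructor
      · nlinarith
      · nlinarith
    rw [h4]; ring
  split_ifs with h1 h2 h3 h4
  · rw [h1, Int.ediv_zero]
  · rw [divN_eq (by omega) h2, key _ _ h3 h2]
  · rw [divN_eq (by omega) h2]
  · have hg : 0 < -(g x) := by omega
    rw [divN_eq (by omega) hg]
    have := key (f x) (-(g x)) h4 hg
    have e : -f x - g x - 1 = -f x + -g x - 1 := by ring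
    have e2 : f x / g x = -(f x / -(g x)) := by rw [Int.ediv_neg]; ring
    rw [e, e2, ← this]
    ring
  · have hg : 0 < -(g x) := by omega
    rw [divN_eq (by omega) hg, Int.ediv_neg]
    ring

end Pool.Agent.H79.Cx
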