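import Pool.Agent.H79.PT.Nat

/-!
Binary integers: encoding and polynomial-time arithmetic.
-/

namespace Pool.Agent.H79.Cx

open Function

variable {α β γ δ σ : Type} [Enc α] [Enc β] [Enc γ] [Enc δ] [Enc σ]

theorem PT.foldl_add {f : α → σ → β → σ} {l : α → List β} {s : α → σ}
    (hf : PT (fun p : α × σ × β => f p.1 p.2.1 p.2.2)) (hl : PT l) (hs : PT s)
    (G : Polynomial ℕ) (hG : ∀ a s b, sz (f a s b) ≤ sz s + G.eval (sz a + sz b)) :
    PT (fun a => (l a).foldl (f a) (s a)) := by
  obtain ⟨R, hR⟩ := hl.size_le
  obtain ⟨S, hS⟩ := hs.size_le
  refine PT.foldl hf hl hs (S + R * G.comp (Polynomial.X + R)) ?_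
  intro a i _
  have key : ∀ (m : List β) (x : σ), (∀ b ∈ m, sz b ≤ R.eval (sz a)) →
      sz (m.foldl (f a) x) ≤ sz x + m.length * G.eval (sz a + R.eval (sz a)) := by
    intro m
    induction m with
    | nil => intro x _; simp
    | cons b m ih =>
      intro x hm
      have h1 := ih (f a x b) (fun c hc => hm c (by simp [hc]))
      have h2 := hG a x b
      have h3 := eval_mono G (show sz a + sz b ≤ sz a + R.eval (sz a) from by
        have := hm b (by simp)
        omega)
      simp only [List.foldl_cons, List.length_cons, Nat.succ_mul]
      omega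
  have h1 := key ((l a).take i) (s a) (fun b hb =>
    (sz_mem_le (List.mem_of_mem_take hb)).trans (hR a))
  refine h1.trans ?_
  simp only [Polynomial.eval_add, Polynomial.eval_mul, Polynomial.eval_comp, Polynomial.eval_X]
  refine Nat.add_le_add (hS a) (Nat.mul_le_mul_right _ ?_)
  have h2 := List.length_take_le i (l a)
  have h3 := length_le_sz (l a)
  have h4 := hR a
  omega

@[fun_prop]
theorem PT.isEmpty {l : α → List β} (hl : PT l) : PT (fun x => (l x).isEmpty) := by
  have h : PT (fun x => !(Cx.isCons (Enc.enc (l x)))) := by fun_prop
  refine cast (congrArg _ (funext fun a => ?_)) h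
  cases l a <;> rfl

@[fun_prop]
theorem PT.xor' {f g : α → Bool} (hf : PT f) (hg : PT g) : PT (fun x => f x ^^ g x) := by
  have h : PT (fun x => if f x = true then !(g x) else g x) :=
    PT.ite hf (PT.not' hg) hg
  refine cast (congrArg _ (funext fun x => ?_)) h
  cases f x <;> cases g x <;> rfl

/-- Value of a bit. -/
def bv (b : Bool) : ℕ := if b then 1 else 0

/-- Value of a list of bits, least significant bit first. -/
def val : List Bool → ℕ
  | [] => 0
  | b :: l => bv b + 2 * val l

@[simp] theorem val_nil : val [] = 0 := rfl
@[simp] theorem val_cons (b : Bool) (l : List Bool) : val (b :: l) = bv b + 2 * val l := rfl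

theorem val_append (l m : List Bool) : val (l ++ m) = val l + 2 ^ l.length * val m := by
  induction l with
  | nil => simp
  | cons b l ih => simp only [List.cons_append, val_cons, ih, List.length_cons]; ring

theorem val_lt (l : List Bool) : val l < 2 ^ l.length := by
  induction l with
  | nil => simp
  | cons b l ih =>
    simp only [val_cons, List.length_cons, pow_succ]
    have : bv b ≤ 1 := by cases b <;> simp [bv]
    omega

theorem bit_eq (b : Bool) (n : ℕ) : Nat.bit b n = bv b + 2 * n := by
  cases b <;> simp [bv, Nat.bit] <;> omega

theorem val_bits (n : ℕ) : val n.bits = n := by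
  induction n using Nat.binaryRec' with
  | zero => simp
  | bit b n h ih => rw [Nat.bits_append_bit n b h, val_cons, ih, bit_eq]

/-- Removal of leading zeros. -/
def norm (l : List Bool) : List Bool :=
  l.reverse.foldl (fun s b => if (b || !s.isEmpty) = true then b :: s else s) []

theorem norm_nil : norm [] = [] := rfl

theorem norm_cons (b : Bool) (l : List Bool) :
    norm (b :: l) = if (b || !(norm l).isEmpty) = true then b :: norm l else norm l := by
  simp [norm, List.foldl_append]

theorem norm_eq (l : List Bool) : norm l = (val l).bits := by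
  induction l with
  | nil => simp [norm_nil]
  | cons b l ih =>
    rw [norm_cons, val_cons, ih, ← bit_eq]
    cases b with
    | true => simp
    | false =>
      rcases Nat.eq_zero_or_pos (val l) with h | h
      · simp [h]
      · rw [Nat.bits_append_bit _ false (by omega)]
        have : (val l).bits ≠ [] := by
          intro h0
          have := val_bits (val l)
          rw [h0] at this
          simp at this
          omega
        simp [this]

@[fun_prop]
theorem PT.norm {l : α → List Bool} (hl : PT l) : PT (fun x => norm (l x)) := by
  unfold Cx.norm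
  refine PT.foldl_add (f := fun (_ : α) (s : List Bool) (b : Bool) =>
    if (b || !s.isEmpty) = true then b :: s else s)
    (by fun_prop) (by fun_prop) (by fun_prop) 4 ?_
  intro a s b
  have := sz_bool_le b
  simp only [Polynomial.eval_ofNat]
  split_ifs
  · simp only [sz_cons]; omega
  · omega

instance : Enc ℤ := ⟨fun z => Enc.enc (decide (z < 0), z.natAbs.bits)⟩

theorem enc_int (z : ℤ) : Enc.enc z = Enc.enc (decide (z < 0), z.natAbs.bits) := rfl

theorem PT.intRep {f : α → ℤ} (hf : PT f) :
    PT (fun x => (decide (f x < 0), (f x).natAbs.bits)) := ⟨hf.ex⟩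

@[fun_prop]
theorem PT.isNeg {f : α → ℤ} (hf : PT f) : PT (fun x => decide (f x < 0)) :=
  PT.fst' (PT.intRep hf)

@[fun_prop]
theorem PT.bitsZ {f : α → ℤ} (hf : PT f) : PT (fun x => (f x).natAbs.bits) :=
  PT.snd' (PT.intRep hf)

/-- The integer with given sign and magnitude. -/
def mkZ (s : Bool) (l : List Bool) : ℤ := if s = true then -(val l : ℤ) else val l

@[fun_prop]
theorem PT.mkZ {s : α → Bool} {l : α → List Bool} (hs : PT s) (hl : PT l) :
    PT (fun x => mkZ (s x) (l x)) := by
  have h : PT (fun x => if (Cx.norm (l x)).isEmpty = true then ((false, []) : Bool × List Bool)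
      else (s x, Cx.norm (l x))) := by fun_prop
  obtain ⟨p, P, hp⟩ := h
  refine ⟨p, P, fun x r => ?_⟩
  have := hp x r
  refine cast ?_ this
  congr 3
  rw [norm_eq]
  unfold cd
  congr 1
  rw [enc_int]
  rcases Nat.eq_zero_or_pos (val (l x)) with h | h
  · cases s x <;> simp [Cx.mkZ, h]
  · have h0 : (val (l x)).bits ≠ [] := by
      intro h0
      have := val_bits (val (l x))
      rw [h0] at this
      simp at this
      omega
    have h0' : (val (l x)).bits.isEmpty = false := by
      cases h1 : (val (l x)).bits with
      | nil => exact absurd h1 h0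
      | cons _ _ => rfl
    rw [h0']
    have e1 : ¬ ((val (l x) : ℤ) < 0) := by omega
    have e2 : (-(val (l x) : ℤ) < 0) := by omega
    cases s x
    · simp only [Cx.mkZ, Bool.false_eq_true, if_false]
      rw [decide_eq_false e1, Int.natAbs_natCast]
    · simp only [Cx.mkZ, if_true, Bool.false_eq_true, if_false]
      rw [decide_eq_true e2, Int.natAbs_neg, Int.natAbs_natCast]

theorem mkZ_rep (z : ℤ) : mkZ (decide (z < 0)) z.natAbs.bits = z := by
  unfold mkZ
  rw [val_bits]
  split_ifs with h
  · have := of_decide_eq_true h; omega
  · have : ¬ z < 0 := by simpa using h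
    omega

/-- Padded pairing of two lists of bits. -/
def zipPad (l m : List Bool) : List (Bool × Bool) :=
  tab (l.length + m.length) (fun i => (l.getD i false, m.getD i false))

/-- Value of the first components. -/
def val1 : List (Bool × Bool) → ℕ
  | [] => 0
  | p :: l => bv p.1 + 2 * val1 l

/-- Value of the second components. -/
def val2 : List (Bool × Bool) → ℕ
  | [] => 0
  | p :: l => bv p.2 + 2 * val2 l

theorem val1_eq (l : List (Bool × Bool)) : val1 l = val (l.map Prod.fst) := by
  induction l with
  | nil => rfl
  | cons p l ih => simp [val1, ih]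

theorem val2_eq (l : List (Bool × Bool)) : val2 l = val (l.map Prod.snd) := by
  induction l with
  | nil => rfl
  | cons p l ih => simp [val2, ih]

theorem val_replicate (n : ℕ) : val (List.replicate n false) = 0 := by
  induction n with
  | zero => rfl
  | succ n ih => simp [List.replicate_succ, ih, bv]

theorem val_tab (l : List Bool) (k : ℕ) :
    val (tab (l.length + k) (fun i => l.getD i false)) = val l := by
  have : tab (l.length + k) (fun i => l.getD i false) = l ++ List.replicate k false := by
    apply List.ext_getElem
    · simp
    · intro i h1 h2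
      simp only [tab, List.getElem_map, List.getElem_range]
      rw [List.getD_eq_getElem?_getD]
      by_cases h : i < l.length
      · simp [h]
      · simp [h, List.getElem_append]
  rw [this, val_append, val_replicate]
  simp

theorem val1_zipPad (l m : List Bool) : val1 (zipPad l m) = val l := by
  rw [val1_eq]
  have : (zipPad l m).map Prod.fst = tab (l.length + m.length) (fun i => l.getD i false) := by
    simp [zipPad, tab, Function.comp_def]
  rw [this, val_tab]

theorem val2_zipPad (l m : List Bool) : val2 (zipPad l m) = val m := by
  rw [val2_eq]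
  have : (zipPad l m).map Prod.snd = tab (m.length + l.length) (fun i => m.getD i false) := by
    simp [zipPad, tab, Function.comp_def, Nat.add_comm]
  rw [this, val_tab]

/-- One step of addition. -/
def addStep (s : Bool × List Bool) (p : Bool × Bool) : Bool × List Bool :=
  ((p.1 && p.2) || (s.1 && (p.1 ^^ p.2)), ((p.1 ^^ p.2) ^^ s.1) :: s.2)

/-- One step of subtraction. -/
def subStep (s : Bool × List Bool) (p : Bool × Bool) : Bool × List Bool :=
  ((!p.1 && (p.2 || s.1)) || (p.2 && s.1), ((p.1 ^^ p.2) ^^ s.1) :: s.2)

theorem add_inv (l : List (Bool × Bool)) : ∀ (s : Bool × List Bool),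
    val ((l.foldl addStep s).2.reverse ++ [(l.foldl addStep s).1]) =
      val s.2.reverse + 2 ^ s.2.length * (bv s.1 + val1 l + val2 l) := by
  induction l with
  | nil => intro s; simp [val_append, val1, val2]
  | cons p l ih =>
    intro s
    rw [List.foldl_cons, ih]
    obtain ⟨c, o⟩ := s
    obtain ⟨x, y⟩ := p
    simp only [addStep, List.reverse_cons, val_append, List.length_cons, List.length_reverse,
      val_cons, val_nil, val1, val2, pow_succ]
    cases c <;> cases x <;> cases y <;> simp [bv] <;> ring

theorem sub_inv (l : List (Bool × Bool)) : ∀ (s : Bool × List Bool),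
    (val (l.foldl subStep s).2.reverse : ℤ) - 2 ^ (l.foldl subStep s).2.length *
      bv (l.foldl subStep s).1 =
      val s.2.reverse + 2 ^ s.2.length * (-(bv s.1 : ℤ) + val1 l - val2 l) := by
  induction l with
  | nil => intro s; simp [val1, val2]; ring
  | cons p l ih =>
    intro s
    rw [List.foldl_cons, ih]
    obtain ⟨c, o⟩ := s
    obtain ⟨x, y⟩ := p
    simp only [subStep, List.reverse_cons, val_append, List.length_cons, List.length_reverse,
      val_cons, val_nil, val1, val2, pow_succ]
    push_cast
    cases c <;> cases x <;> cases y <;> simp [bv] <;> ring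

/-- Sum of two lists of bits. -/
def addB (l m : List Bool) : List Bool :=
  let r := (zipPad l m).foldl addStep (false, [])
  r.2.reverse ++ [r.1]

/-- Difference of two lists of bits, with final borrow. -/
def subB (l m : List Bool) : Bool × List Bool :=
  let r := (zipPad l m).foldl subStep (false, [])
  (r.1, r.2.reverse)

theorem val_addB (l m : List Bool) : val (addB l m) = val l + val m := by
  unfold addB
  simp only
  rw [add_inv, val1_zipPad, val2_zipPad]
  simp [bv]

theorem subB_spec (l m : List Bool) :
    (subB l m).1 = decide (val l < val m) ∧ (val m ≤ val l → val (subB l m).2 = val l - val m) := by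
  have h := sub_inv (zipPad l m) (false, [])
  rw [val1_zipPad, val2_zipPad] at h
  have h' := val_lt ((zipPad l m).foldl subStep (false, [])).2.reverse
  rw [List.length_reverse] at h'
  unfold subB
  simp only
  revert h h'
  generalize (zipPad l m).foldl subStep (false, []) = r
  intro h h'
  obtain ⟨c, o⟩ := r
  simp only [List.reverse_nil, val_nil, List.length_nil, pow_zero] at h
  simp only at h h' ⊢
  have h'' : (val o.reverse : ℤ) < 2 ^ o.length := by exact_mod_cast h'
  cases c with
  | true =>
    simp only [bv, if_true] at h
    have : (val l : ℤ) < val m := by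
      push_cast at h
      simp at h
      linarith
    constructor
    · rw [eq_comm, decide_eq_true_eq]; exact_mod_cast this
    · intro hle; exact absurd hle (by exact_mod_cast not_le.2 this)
  | false =>
    simp only [bv, Bool.false_eq_true, if_false] at h
    push_cast at h
    simp at h
    constructor
    · rw [eq_comm, decide_eq_false_iff_not]; omega
    · intro hle; omega

@[fun_prop]
theorem PT.zipPad {l m : α → List Bool} (hl : PT l) (hm : PT m) :
    PT (fun x => zipPad (l x) (m x)) := by
  unfold Cx.zipPad
  fun_prop

@[fun_prop]
theorem PT.addB {l m : α → List Bool} (hl : PT l) (hm : PT m) :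
    PT (fun x => addB (l x) (m x)) := by
  have h : PT (fun x => (Cx.zipPad (l x) (m x)).foldl addStep (false, [])) := by
    refine PT.foldl_add (f := fun _ => addStep) (by unfold addStep; fun_prop) (by fun_prop)
      (by fun_prop) 10 ?_
    intro a s b
    simp only [addStep, sz_pair, sz_cons, Polynomial.eval_ofNat]
    have h1 := sz_bool_le ((b.1 && b.2) || (s.1 && (b.1 ^^ b.2)))
    have h2 := sz_bool_le ((b.1 ^^ b.2) ^^ s.1)
    omega
  unfold Cx.addB
  fun_prop

@[fun_prop]
theorem PT.subB {l m : α → List Bool} (hl : PT l) (hm : PT m) :
    PT (fun x => subB (l x) (m x)) := by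
  have h : PT (fun x => (Cx.zipPad (l x) (m x)).foldl subStep (false, [])) := by
    refine PT.foldl_add (f := fun _ => subStep) (by unfold subStep; fun_prop) (by fun_prop)
      (by fun_prop) 10 ?_
    intro a s b
    simp only [subStep, sz_pair, sz_cons, Polynomial.eval_ofNat]
    have h1 := sz_bool_le ((!b.1 && (b.2 || s.1)) || (b.2 && s.1))
    have h2 := sz_bool_le ((b.1 ^^ b.2) ^^ s.1)
    omega
  unfold Cx.subB
  fun_prop

theorem PT.int_congr {f g : α → ℤ} (hf : PT f) (h : ∀ x, f x = g x) : PT g := by
  have : f = g := funext h
  rwa [← this]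

@[fun_prop]
theorem PT.intNeg {f : α → ℤ} (hf : PT f) : PT (fun x => -(f x)) := by
  have h : PT (fun x => Cx.mkZ (!(decide (f x < 0))) (f x).natAbs.bits) := by fun_prop
  refine PT.int_congr h fun x => ?_
  unfold Cx.mkZ
  rw [val_bits]
  by_cases hx : f x < 0
  · simp [hx]; omega
  · simp [hx]; omega

attribute [irreducible] mkZ norm zipPad addB subB

end Pool.Agent.H79.Cx
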