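import Pool.Agent.H79.PT.Int2

/-!
Counted loops and their clamped versions.
-/

namespace Pool.Agent.H79.Cx

open Function

/-- Counted loop. -/
def loop {σ : Type} (f : ℕ → σ → σ) : ℕ → σ → σ
  | 0, s => s
  | n + 1, s => f n (loop f n s)

theorem loop_eq_foldl {σ : Type} (f : ℕ → σ → σ) (n : ℕ) (s : σ) :
    (List.range n).foldl (fun s t => f t s) s = loop f n s := by
  induction n with
  | zero => rfl
  | succ n ih => rw [List.range_succ, List.foldl_append, ih]; rfl

variable {α β γ δ σ : Type} [Enc α] [Enc β] [Enc γ] [Enc δ] [Enc σ]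

/-- Clamped counted loop. -/
def loopC [Inhabited σ] (L : ℕ) (f : ℕ → σ → σ) (n : ℕ) (s : σ) : σ :=
  foldC L (fun s t => f t s) (List.range n) s

theorem loopC_eq [Inhabited σ] {L : ℕ} {f : ℕ → σ → σ} {n : ℕ} {s : σ}
    (h : ∀ i < n, sz (loop f (i + 1) s) ≤ L) : loopC L f n s = loop f n s := by
  unfold loopC
  rw [foldC_eq, loop_eq_foldl]
  intro i hi
  rw [List.length_range] at hi
  have : (List.range n).take (i + 1) = List.range (i + 1) := by
    rw [List.take_range]
    congr 1
    omega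
  rw [this, loop_eq_foldl]
  exact h i hi

@[fun_prop]
theorem PT.loopC [Inhabited σ] {f : α → ℕ → σ → σ} {L n : α → ℕ} {s : α → σ}
    (hf : PT (fun p : α × ℕ × σ => f p.1 p.2.1 p.2.2)) (hL : PT L) (hn : PT n) (hs : PT s) :
    PT (fun a => loopC (L a) (f a) (n a) (s a)) := by
  unfold Cx.loopC
  refine PT.foldC (f := fun a s t => f a t s) ?_ hL (by fun_prop) hs
  exact hf.comp (f := fun p : α × σ × ℕ => (p.1, p.2.2, p.2.1)) (by fun_prop)

end Pool.Agent.H79.Cx
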