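import Pool.Agent.H79.PT.Machine

/-!
Binary trees, their prefix codes, and the elementary stack programs acting on them.
-/

namespace Pool.Agent.H79.Cx

open Function

/-- Binary trees. -/
inductive D
  | nil
  | cons (x y : D)
  deriving DecidableEq

namespace D

/-- Prefix code. -/
def enc : D → List Bool
  | nil => [false]
  | cons x y => true :: (enc x ++ enc y)

/-- Size. -/
def size : D → ℕ
  | nil => 1
  | cons x y => 1 + size x + size y

@[simp] theorem size_nil : size nil = 1 := rfl
@[simp] theorem size_cons (x y : D) : size (cons x y) = 1 + size x + size y := rfl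
@[simp] theorem enc_nil : enc nil = [false] := rfl
@[simp] theorem enc_cons (x y : D) : enc (cons x y) = true :: (enc x ++ enc y) := rfl

theorem size_pos (x : D) : 0 < size x := by
  cases x
  · simp
  · simp only [size_cons]; omega

theorem length_enc (x : D) : (enc x).length = size x := by
  induction x with
  | nil => rfl
  | cons x y ihx ihy => simp [ihx, ihy]; omega

/-- Length of the right spine. -/
def len : D → ℕ
  | nil => 0
  | cons _ y => len y + 1

/-- First component. -/
def car : D → D
  | nil => nil
  | cons x _ => x

/-- Second component. -/
def cdr : D → D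
  | nil => nil
  | cons _ y => y

theorem len_le_size (x : D) : len x ≤ size x := by
  induction x with
  | nil => simp [len]
  | cons x y _ ih => simp only [len, size_cons]; omega

end D

/-- The state with given contents of the four stacks. -/
def st (v a b c : List Bool) : St := fun k => match k with
  | .v => v
  | .a => a
  | .b => b
  | .c => c

section st
variable (v a b c x : List Bool)
@[simp] theorem st_v : st v a b c K.v = v := rfl
@[simp] theorem st_a : st v a b c K.a = a := rfl
@[simp] theorem st_b : st v a b c K.b = b := rfl
@[simp] theorem st_c : st v a b c K.c = c := rfl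
@[simp] theorem update_v : update (st v a b c) K.v x = st x a b c := by
  funext k; cases k <;> simp [update]
@[simp] theorem update_a : update (st v a b c) K.a x = st v x b c := by
  funext k; cases k <;> simp [update]
@[simp] theorem update_b : update (st v a b c) K.b x = st v a x c := by
  funext k; cases k <;> simp [update]
@[simp] theorem update_c : update (st v a b c) K.c x = st v a b x := by
  funext k; cases k <;> simp [update]
end st

theorem only_eq (x : List Bool) : only x = st x [] [] [] := by
  funext k; cases k <;> rfl

/-- `p` turns `S` into `S'` in at most `n` steps. -/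
def RunLe (p : Prog) (S S' : St) (n : ℕ) : Prop := ∃ m, m ≤ n ∧ Run p S S' m

namespace RunLe

theorem mono {p : Prog} {S S' : St} {m n : ℕ} (h : RunLe p S S' m) (hmn : m ≤ n) :
    RunLe p S S' n := by
  obtain ⟨k, hk, h⟩ := h
  exact ⟨k, hk.trans hmn, h⟩

theorem push (k : K) (b : Bool) (S : St) : RunLe (.push k b) S (update S k (b :: S k)) 1 :=
  ⟨1, le_rfl, Run.push k b S⟩

theorem pop (k : K) (S : St) : RunLe (.pop k) S (update S k (S k).tail) 1 :=
  ⟨1, le_rfl, Run.pop k S⟩

theorem seq {p q : Prog} {S S' S'' : St} {m n : ℕ} (h1 : RunLe p S S' m)
    (h2 : RunLe q S' S'' n) : RunLe (.seq p q) S S'' (m + n) := by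
  obtain ⟨k, hk, h1⟩ := h1
  obtain ⟨l, hl, h2⟩ := h2
  exact ⟨k + l, by omega, Run.seq h1 h2⟩

theorem iteT {k : K} {t : Option Bool → Bool} {p q : Prog} {S S' : St} {n : ℕ}
    (ht : t (S k).head? = true) (h : RunLe p S S' n) : RunLe (.ite k t p q) S S' (n + 1) := by
  obtain ⟨l, hl, h⟩ := h
  exact ⟨l + 1, by omega, Run.iteT ht h⟩

theorem iteF {k : K} {t : Option Bool → Bool} {p q : Prog} {S S' : St} {n : ℕ}
    (ht : t (S k).head? = false) (h : RunLe q S S' n) : RunLe (.ite k t p q) S S' (n + 1) := by
  obtain ⟨l, hl, h⟩ := h
  exact ⟨l + 1, by omega, Run.iteF ht h⟩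

theorem loopF {k : K} {t : Option Bool → Bool} {p : Prog} {S : St}
    (ht : t (S k).head? = false) : RunLe (.loop k t p) S S 1 :=
  ⟨1, le_rfl, Run.loopF ht⟩

theorem loopT {k : K} {t : Option Bool → Bool} {p : Prog} {S S' S'' : St} {m n : ℕ}
    (ht : t (S k).head? = true) (h1 : RunLe p S S' m) (h2 : RunLe (.loop k t p) S' S'' n) :
    RunLe (.loop k t p) S S'' (m + n + 1) := by
  obtain ⟨k, hk, h1⟩ := h1
  obtain ⟨l, hl, h2⟩ := h2
  exact ⟨k + l + 1, by omega, Run.loopT ht h1 h2⟩

end RunLe

/-- Total size of the stacks. -/
def total (S : St) : ℕ := (S .v).length + (S .a).length + (S .b).length + (S .c).length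

theorem total_update_le (S : St) (k : K) (x : List Bool) (h : x.length ≤ (S k).length + 1) :
    total (update S k x) ≤ total S + 1 := by
  cases k <;> simp [total, update] <;> omega

theorem Run.total_le {p : Prog} {S S' : St} {n : ℕ} (h : Run p S S' n) :
    total S' ≤ total S + n := by
  induction h with
  | push k b S => exact total_update_le S k _ (by simp)
  | pop k S => exact total_update_le S k _ (by simp; omega)
  | seq _ _ ih1 ih2 => omega
  | iteT _ _ ih => omega
  | iteF _ _ ih => omega
  | loopF _ => omega
  | loopT _ _ _ ih1 ih2 => omega

theorem RunLe.total_le {p : Prog} {S S' : St} {n : ℕ} (h : RunLe p S S' n) :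
    total S' ≤ total S + n := by
  obtain ⟨m, hm, h⟩ := h
  have := h.total_le
  omega

/-- Test: the top symbol is `true`. -/
def isT : Option Bool → Bool := fun o => o == some true

/-- Test: the stack is non-empty. -/
def isS : Option Bool → Bool := Option.isSome

@[simp] theorem isT_true : isT (some true) = true := rfl
@[simp] theorem isT_false : isT (some false) = false := rfl
@[simp] theorem isT_none : isT none = false := rfl
@[simp] theorem isS_some (x : Bool) : isS (some x) = true := rfl
@[simp] theorem isS_none : isS none = false := rfl

open Prog

/-- Body of the loop moving one code from `v` to `a`. -/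
def moveABody : Prog :=
  .seq (.ite .v isT (.seq (.push .a true) (.push .c true)) (.seq (.push .a false) (.pop .c)))
    (.pop .v)

/-- Body of the loop moving one code from `v` to `b`. -/
def moveBBody : Prog :=
  .seq (.ite .v isT (.seq (.push .b true) (.push .c true)) (.seq (.push .b false) (.pop .c)))
    (.pop .v)

/-- Body of the loop dropping one code from `v`. -/
def dropBody : Prog :=
  .seq (.ite .v isT (.push .c true) (.pop .c)) (.pop .v)

theorem moveABody_true (r a b c : List Bool) :
    RunLe moveABody (st (true :: r) a b c) (st r (true :: a) b (true :: c)) 4 := by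
  have h1 := RunLe.push .a true (st (true :: r) a b c)
  simp only [st_a, update_a] at h1
  have h2 := RunLe.push .c true (st (true :: r) (true :: a) b c)
  simp only [st_c, update_c] at h2
  have h3 := RunLe.pop .v (st (true :: r) (true :: a) b (true :: c))
  simp only [st_v, update_v, List.tail_cons] at h3
  exact RunLe.seq (RunLe.iteT (by simp) (RunLe.seq h1 h2)) h3

theorem moveABody_false (r a b c : List Bool) (x : Bool) :
    RunLe moveABody (st (false :: r) a b (x :: c)) (st r (false :: a) b c) 4 := by
  have h1 := RunLe.push .a false (st (false :: r) a b (x :: c))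
  simp only [st_a, update_a] at h1
  have h2 := RunLe.pop .c (st (false :: r) (false :: a) b (x :: c))
  simp only [st_c, update_c, List.tail_cons] at h2
  have h3 := RunLe.pop .v (st (false :: r) (false :: a) b c)
  simp only [st_v, update_v, List.tail_cons] at h3
  exact RunLe.seq (RunLe.iteF (by simp) (RunLe.seq h1 h2)) h3

theorem moveBBody_true (r a b c : List Bool) :
    RunLe moveBBody (st (true :: r) a b c) (st r a (true :: b) (true :: c)) 4 := by
  have h1 := RunLe.push .b true (st (true :: r) a b c)
  simp only [st_b, update_b] at h1
  have h2 := RunLe.push .c true (st (true :: r) a (true :: b) c)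
  simp only [st_c, update_c] at h2
  have h3 := RunLe.pop .v (st (true :: r) a (true :: b) (true :: c))
  simp only [st_v, update_v, List.tail_cons] at h3
  exact RunLe.seq (RunLe.iteT (by simp) (RunLe.seq h1 h2)) h3

theorem moveBBody_false (r a b c : List Bool) (x : Bool) :
    RunLe moveBBody (st (false :: r) a b (x :: c)) (st r a (false :: b) c) 4 := by
  have h1 := RunLe.push .b false (st (false :: r) a b (x :: c))
  simp only [st_b, update_b] at h1
  have h2 := RunLe.pop .c (st (false :: r) a (false :: b) (x :: c))
  simp only [st_c, update_c, List.tail_cons] at h2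
  have h3 := RunLe.pop .v (st (false :: r) a (false :: b) c)
  simp only [st_v, update_v, List.tail_cons] at h3
  exact RunLe.seq (RunLe.iteF (by simp) (RunLe.seq h1 h2)) h3

theorem dropBody_true (r a b c : List Bool) :
    RunLe dropBody (st (true :: r) a b c) (st r a b (true :: c)) 4 := by
  have h2 := RunLe.push .c true (st (true :: r) a b c)
  simp only [st_c, update_c] at h2
  have h3 := RunLe.pop .v (st (true :: r) a b (true :: c))
  simp only [st_v, update_v, List.tail_cons] at h3
  exact (RunLe.seq (RunLe.iteT (by simp) h2) h3).mono (by omega)

theorem dropBody_false (r a b c : List Bool) (x : Bool) :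
    RunLe dropBody (st (false :: r) a b (x :: c)) (st r a b c) 4 := by
  have h2 := RunLe.pop .c (st (false :: r) a b (x :: c))
  simp only [st_c, update_c, List.tail_cons] at h2
  have h3 := RunLe.pop .v (st (false :: r) a b c)
  simp only [st_v, update_v, List.tail_cons] at h3
  exact (RunLe.seq (RunLe.iteF (by simp) h2) h3).mono (by omega)

/-- Move one code from `v` to `a` (reversed). -/
def moveA : Prog := .seq (.push .c true) (.loop .c isS moveABody)
/-- Move one code from `v` to `b` (reversed). -/
def moveB : Prog := .seq (.push .c true) (.loop .c isS moveBBody)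
/-- Drop one code from `v`. -/
def drop : Prog := .seq (.push .c true) (.loop .c isS dropBody)

theorem moveA_loop (x : D) : ∀ (r a b c : List Bool) (S : St) (n : ℕ),
    RunLe (.loop .c isS moveABody) (st r (x.enc.reverse ++ a) b c) S n →
    RunLe (.loop .c isS moveABody) (st (x.enc ++ r) a b (true :: c)) S (n + 5 * x.size) := by
  induction x with
  | nil =>
    intro r a b c S n h
    exact (RunLe.loopT (by simp) (moveABody_false r a b c true) (by simpa using h)).mono
      (by simp; omega)
  | cons x y ihx ihy =>
    intro r a b c S n h
    have h1 := ihy r (x.enc.reverse ++ true :: a) b c S n (by simpa using h)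
    have h2 := ihx (y.enc ++ r) (true :: a) b (true :: c) S _ h1
    have h3 := RunLe.loopT (k := .c) (t := isS) (by simp)
      (moveABody_true (x.enc ++ (y.enc ++ r)) a b (true :: c)) h2
    simp only [D.enc_cons, List.cons_append, List.append_assoc]
    exact h3.mono (by simp; omega)

theorem moveB_loop (x : D) : ∀ (r a b c : List Bool) (S : St) (n : ℕ),
    RunLe (.loop .c isS moveBBody) (st r a (x.enc.reverse ++ b) c) S n →
    RunLe (.loop .c isS moveBBody) (st (x.enc ++ r) a b (true :: c)) S (n + 5 * x.size) := by
  induction x with
  | nil =>
    intro r a b c S n h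
    exact (RunLe.loopT (by simp) (moveBBody_false r a b c true) (by simpa using h)).mono
      (by simp; omega)
  | cons x y ihx ihy =>
    intro r a b c S n h
    have h1 := ihy r a (x.enc.reverse ++ true :: b) c S n (by simpa using h)
    have h2 := ihx (y.enc ++ r) a (true :: b) (true :: c) S _ h1
    have h3 := RunLe.loopT (k := .c) (t := isS) (by simp)
      (moveBBody_true (x.enc ++ (y.enc ++ r)) a b (true :: c)) h2
    simp only [D.enc_cons, List.cons_append, List.append_assoc]
    exact h3.mono (by simp; omega)

theorem drop_loop (x : D) : ∀ (r a b c : List Bool) (S : St) (n : ℕ),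
    RunLe (.loop .c isS dropBody) (st r a b c) S n →
    RunLe (.loop .c isS dropBody) (st (x.enc ++ r) a b (true :: c)) S (n + 5 * x.size) := by
  induction x with
  | nil =>
    intro r a b c S n h
    exact (RunLe.loopT (by simp) (dropBody_false r a b c true) (by simpa using h)).mono
      (by simp; omega)
  | cons x y ihx ihy =>
    intro r a b c S n h
    have h1 := ihy r a b c S n h
    have h2 := ihx (y.enc ++ r) a b (true :: c) S _ h1
    have h3 := RunLe.loopT (k := .c) (t := isS) (by simp)
      (dropBody_true (x.enc ++ (y.enc ++ r)) a b (true :: c)) h2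
    simp only [D.enc_cons, List.cons_append, List.append_assoc]
    exact h3.mono (by simp; omega)

theorem run_moveA (x : D) (r a b : List Bool) :
    RunLe moveA (st (x.enc ++ r) a b []) (st r (x.enc.reverse ++ a) b []) (5 * x.size + 2) := by
  have h1 := RunLe.push .c true (st (x.enc ++ r) a b [])
  simp only [st_c, update_c] at h1
  exact (RunLe.seq h1 (moveA_loop x r a b [] _ 1 (RunLe.loopF (by simp)))).mono (by omega)

theorem run_moveB (x : D) (r a b : List Bool) :
    RunLe moveB (st (x.enc ++ r) a b []) (st r a (x.enc.reverse ++ b) []) (5 * x.size + 2) := by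
  have h1 := RunLe.push .c true (st (x.enc ++ r) a b [])
  simp only [st_c, update_c] at h1
  exact (RunLe.seq h1 (moveB_loop x r a b [] _ 1 (RunLe.loopF (by simp)))).mono (by omega)

theorem run_drop (x : D) (r a b : List Bool) :
    RunLe drop (st (x.enc ++ r) a b []) (st r a b []) (5 * x.size + 2) := by
  have h1 := RunLe.push .c true (st (x.enc ++ r) a b [])
  simp only [st_c, update_c] at h1
  exact (RunLe.seq h1 (drop_loop x r a b [] _ 1 (RunLe.loopF (by simp)))).mono (by omega)

/-- Pour `a` into `v`. -/
def pourA : Prog :=
  .loop .a isS (.seq (.ite .a isT (.push .v true) (.push .v false)) (.pop .a))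
/-- Pour `b` into `v`. -/
def pourB : Prog :=
  .loop .b isS (.seq (.ite .b isT (.push .v true) (.push .v false)) (.pop .b))
/-- Pour `b` into `a`. -/
def pourBA : Prog :=
  .loop .b isS (.seq (.ite .b isT (.push .a true) (.push .a false)) (.pop .b))
/-- Pour `a` into both `v` and `b`. -/
def pourDup : Prog :=
  .loop .a isS (.seq (.ite .a isT (.seq (.push .v true) (.push .b true))
    (.seq (.push .v false) (.push .b false))) (.pop .a))

theorem run_pourA (x : List Bool) : ∀ (v b c : List Bool),
    RunLe pourA (st v x b c) (st (x.reverse ++ v) [] b c) (4 * x.length + 1) := by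
  induction x with
  | nil => intro v b c; exact RunLe.loopF (by simp)
  | cons y x ih =>
    intro v b c
    have h0 : RunLe (.ite .a isT (.push .v true) (.push .v false)) (st v (y :: x) b c)
        (st (y :: v) (y :: x) b c) 2 := by
      cases y
      · have h := RunLe.push .v false (st v (false :: x) b c)
        simp only [st_v, update_v] at h
        exact RunLe.iteF (by simp) h
      · have h := RunLe.push .v true (st v (true :: x) b c)
        simp only [st_v, update_v] at h
        exact RunLe.iteT (by simp) h
    have h1 := RunLe.pop .a (st (y :: v) (y :: x) b c)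
    simp only [st_a, update_a, List.tail_cons] at h1
    have h2 := RunLe.loopT (k := .a) (t := isS) (S := st v (y :: x) b c) (by simp)
      (RunLe.seq h0 h1) (ih (y :: v) b c)
    simp only [List.reverse_cons, List.append_assoc, List.cons_append, List.nil_append]
    exact h2.mono (by simp; omega)

theorem run_pourB (x : List Bool) : ∀ (v a c : List Bool),
    RunLe pourB (st v a x c) (st (x.reverse ++ v) a [] c) (4 * x.length + 1) := by
  induction x with
  | nil => intro v a c; exact RunLe.loopF (by simp)
  | cons y x ih =>
    intro v a c
    have h0 : RunLe (.ite .b isT (.push .v true) (.push .v false)) (st v a (y :: x) c)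
        (st (y :: v) a (y :: x) c) 2 := by
      cases y
      · have h := RunLe.push .v false (st v a (false :: x) c)
        simp only [st_v, update_v] at h
        exact RunLe.iteF (by simp) h
      · have h := RunLe.push .v true (st v a (true :: x) c)
        simp only [st_v, update_v] at h
        exact RunLe.iteT (by simp) h
    have h1 := RunLe.pop .b (st (y :: v) a (y :: x) c)
    simp only [st_b, update_b, List.tail_cons] at h1
    have h2 := RunLe.loopT (k := .b) (t := isS) (S := st v a (y :: x) c) (by simp)
      (RunLe.seq h0 h1) (ih (y :: v) a c)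
    simp only [List.reverse_cons, List.append_assoc, List.cons_append, List.nil_append]
    exact h2.mono (by simp; omega)

theorem run_pourBA (x : List Bool) : ∀ (v a c : List Bool),
    RunLe pourBA (st v a x c) (st v (x.reverse ++ a) [] c) (4 * x.length + 1) := by
  induction x with
  | nil => intro v a c; exact RunLe.loopF (by simp)
  | cons y x ih =>
    intro v a c
    have h0 : RunLe (.ite .b isT (.push .a true) (.push .a false)) (st v a (y :: x) c)
        (st v (y :: a) (y :: x) c) 2 := by
      cases y
      · have h := RunLe.push .a false (st v a (false :: x) c)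
        simp only [st_a, update_a] at h
        exact RunLe.iteF (by simp) h
      · have h := RunLe.push .a true (st v a (true :: x) c)
        simp only [st_a, update_a] at h
        exact RunLe.iteT (by simp) h
    have h1 := RunLe.pop .b (st v (y :: a) (y :: x) c)
    simp only [st_b, update_b, List.tail_cons] at h1
    have h2 := RunLe.loopT (k := .b) (t := isS) (S := st v a (y :: x) c) (by simp)
      (RunLe.seq h0 h1) (ih v (y :: a) c)
    simp only [List.reverse_cons, List.append_assoc, List.cons_append, List.nil_append]
    exact h2.mono (by simp; omega)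

theorem run_pourDup (x : List Bool) : ∀ (v b c : List Bool),
    RunLe pourDup (st v x b c) (st (x.reverse ++ v) [] (x.reverse ++ b) c)
      (5 * x.length + 1) := by
  induction x with
  | nil => intro v b c; exact RunLe.loopF (by simp)
  | cons y x ih =>
    intro v b c
    have h0 : RunLe (.ite .a isT (.seq (.push .v true) (.push .b true))
        (.seq (.push .v false) (.push .b false))) (st v (y :: x) b c)
        (st (y :: v) (y :: x) (y :: b) c) 3 := by
      cases y
      · have h := RunLe.push .v false (st v (false :: x) b c)
        simp only [st_v, update_v] at h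
        have h' := RunLe.push .b false (st (false :: v) (false :: x) b c)
        simp only [st_b, update_b] at h'
        exact RunLe.iteF (by simp) (RunLe.seq h h')
      · have h := RunLe.push .v true (st v (true :: x) b c)
        simp only [st_v, update_v] at h
        have h' := RunLe.push .b true (st (true :: v) (true :: x) b c)
        simp only [st_b, update_b] at h'
        exact RunLe.iteT (by simp) (RunLe.seq h h')
    have h1 := RunLe.pop .a (st (y :: v) (y :: x) (y :: b) c)
    simp only [st_a, update_a, List.tail_cons] at h1
    have h2 := RunLe.loopT (k := .a) (t := isS) (S := st v (y :: x) b c) (by simp)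
      (RunLe.seq h0 h1) (ih (y :: v) (y :: b) c)
    simp only [List.reverse_cons, List.append_assoc, List.cons_append, List.nil_append]
    exact h2.mono (by simp; omega)

/-- Duplicate the top value. -/
def dup : Prog := .seq moveA (.seq pourDup (.seq pourBA pourA))
/-- Exchange the two top values. -/
def swap : Prog := .seq moveA (.seq moveB (.seq pourA pourB))

theorem run_dup (x : D) (r : List Bool) :
    RunLe dup (st (x.enc ++ r) [] [] []) (st (x.enc ++ (x.enc ++ r)) [] [] [])
      (18 * x.size + 5) := by
  have h1 := run_moveA x r [] []
  have h2 := run_pourDup (x.enc.reverse ++ []) r [] []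
  have h3 := run_pourBA ((x.enc.reverse ++ []).reverse ++ [])
    ((x.enc.reverse ++ []).reverse ++ r) [] []
  have h4 := run_pourA (((x.enc.reverse ++ []).reverse ++ []).reverse ++ [])
    ((x.enc.reverse ++ []).reverse ++ r) [] []
  have h := RunLe.seq h1 (RunLe.seq h2 (RunLe.seq h3 h4))
  simp only [List.append_nil, List.reverse_reverse, List.length_reverse, D.length_enc] at h
  exact h.mono (by omega)

theorem run_swap (x y : D) (r : List Bool) :
    RunLe swap (st (x.enc ++ (y.enc ++ r)) [] [] []) (st (y.enc ++ (x.enc ++ r)) [] [] [])
      (9 * x.size + 9 * y.size + 6) := by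
  have h1 := run_moveA x (y.enc ++ r) [] []
  have h2 := run_moveB y r (x.enc.reverse ++ []) []
  have h3 := run_pourA (x.enc.reverse ++ []) r (y.enc.reverse ++ []) []
  have h4 := run_pourB (y.enc.reverse ++ []) ((x.enc.reverse ++ []).reverse ++ r) [] []
  have h := RunLe.seq h1 (RunLe.seq h2 (RunLe.seq h3 h4))
  simp only [List.append_nil, List.reverse_reverse, List.length_reverse, D.length_enc] at h
  exact h.mono (by omega)

end Pool.Agent.H79.Cx
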