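import Mathlib

/-!
Structured programs over four stacks of bits, with a big-step cost semantics, and their
translation into Mathlib's `TM2` machines.
-/

namespace Pool.Agent.H79.Cx

open Turing Function

/-- The four stacks. -/
inductive K
  | v
  | a
  | b
  | c
  deriving DecidableEq

instance : Fintype K := ⟨{K.v, K.a, K.b, K.c}, by intro x; cases x <;> simp⟩

/-- Contents of the stacks. -/
abbrev St := K → List Bool

/-- Structured programs. -/
inductive Prog
  | push (k : K) (b : Bool)
  | pop (k : K)
  | seq (p q : Prog)
  | ite (k : K) (t : Option Bool → Bool) (p q : Prog)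
  | loop (k : K) (t : Option Bool → Bool) (p : Prog)

/-- `Run p S S' n`: the program `p` turns `S` into `S'` in exactly `n` steps. -/
inductive Run : Prog → St → St → ℕ → Prop
  | push (k : K) (b : Bool) (S : St) : Run (.push k b) S (update S k (b :: S k)) 1
  | pop (k : K) (S : St) : Run (.pop k) S (update S k (S k).tail) 1
  | seq {p q : Prog} {S S' S'' : St} {m n : ℕ} :
      Run p S S' m → Run q S' S'' n → Run (.seq p q) S S'' (m + n)
  | iteT {k : K} {t : Option Bool → Bool} {p q : Prog} {S S' : St} {n : ℕ} :
      t (S k).head? = true → Run p S S' n → Run (.ite k t p q) S S' (n + 1)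
  | iteF {k : K} {t : Option Bool → Bool} {p q : Prog} {S S' : St} {n : ℕ} :
      t (S k).head? = false → Run q S S' n → Run (.ite k t p q) S S' (n + 1)
  | loopF {k : K} {t : Option Bool → Bool} {p : Prog} {S : St} :
      t (S k).head? = false → Run (.loop k t p) S S 1
  | loopT {k : K} {t : Option Bool → Bool} {p : Prog} {S S' S'' : St} {m n : ℕ} :
      t (S k).head? = true → Run p S S' m → Run (.loop k t p) S' S'' n →
      Run (.loop k t p) S S'' (m + n + 1)

/-- Labels of the machine for a program. -/
def L : Prog → Type
  | .push _ _ => Unit
  | .pop _ => Unit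
  | .seq p q => L p ⊕ L q
  | .ite _ _ p q => Option (L p ⊕ L q)
  | .loop _ _ p => Option (L p)

instance finiteL : ∀ p : Prog, Finite (L p)
  | .push _ _ => inferInstanceAs (Finite Unit)
  | .pop _ => inferInstanceAs (Finite Unit)
  | .seq p q =>
    have := finiteL p
    have := finiteL q
    inferInstanceAs (Finite (L p ⊕ L q))
  | .ite _ _ p q =>
    have := finiteL p
    have := finiteL q
    inferInstanceAs (Finite (Option (L p ⊕ L q)))
  | .loop _ _ p =>
    have := finiteL p
    inferInstanceAs (Finite (Option (L p)))

/-- Entry label. -/
def entry : (p : Prog) → L p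
  | .push _ _ => ()
  | .pop _ => ()
  | .seq p _ => Sum.inl (entry p)
  | .ite _ _ _ _ => none
  | .loop _ _ _ => none

/-- Statement that tests a stack and jumps. -/
def test {Λ : Type} (k : K) (t : Option Bool → Bool) (l₁ l₂ : Λ) :
    TM2.Stmt (fun _ : K => Bool) Λ (Option Bool) :=
  .peek k (fun _ h => h) (.branch t (.load (fun _ => none) (.goto fun _ => l₁))
    (.load (fun _ => none) (.goto fun _ => l₂)))

/-- The statements of the machine for a program. -/
def code {Λ : Type} : (p : Prog) → (L p → Λ) → Λ → L p →
    TM2.Stmt (fun _ : K => Bool) Λ (Option Bool)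
  | .push k b, _, ex => fun _ => .push k (fun _ => b) (.goto fun _ => ex)
  | .pop k, _, ex => fun _ => .pop k (fun v _ => v) (.goto fun _ => ex)
  | .seq p q, ι, ex => fun l =>
      Sum.elim (code p (fun l => ι (Sum.inl l)) (ι (Sum.inr (entry q))))
        (code q (fun l => ι (Sum.inr l)) ex) l
  | .ite k t p q, ι, ex => fun l =>
      Option.elim l (test k t (ι (some (Sum.inl (entry p)))) (ι (some (Sum.inr (entry q)))))
        (Sum.elim (code p (fun l => ι (some (Sum.inl l))) ex)
          (code q (fun l => ι (some (Sum.inr l))) ex))
  | .loop k t p, ι, ex => fun l =>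
      Option.elim l (test k t (ι (some (entry p))) ex)
        (code p (fun l => ι (some l)) (ι none))

theorem sim {Λ : Type} (M : Λ → TM2.Stmt (fun _ : K => Bool) Λ (Option Bool))
    {p : Prog} {S S' : St} {n : ℕ} (h : Run p S S' n) :
    ∀ (ι : L p → Λ) (ex : Λ), (∀ l, M (ι l) = code p ι ex l) →
      (flip bind (TM2.step M))^[n] (some ⟨some (ι (entry p)), none, S⟩) =
        some ⟨some ex, none, S'⟩ := by
  induction h with
  | push k b S =>
    intro ι ex hM
    have := hM (entry (.push k b))
    simp only [iterate_one, flip, Option.bind_eq_bind, Option.bind_some, TM2.step, this]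
    simp [code]
  | pop k S =>
    intro ι ex hM
    have := hM (entry (.pop k))
    simp only [iterate_one, flip, Option.bind_eq_bind, Option.bind_some, TM2.step, this]
    simp [code]
  | @seq p q S S' S'' m n h1 h2 ih1 ih2 =>
    intro ι ex hM
    rw [Nat.add_comm, iterate_add_apply]
    have e1 := ih1 (fun l => ι (Sum.inl l)) (ι (Sum.inr (entry q))) (fun l => hM (Sum.inl l))
    have e2 := ih2 (fun l => ι (Sum.inr l)) ex (fun l => hM (Sum.inr l))
    exact (congrArg _ e1).trans e2
  | @iteT k t p q S S' n ht h ih =>
    intro ι ex hM
    rw [iterate_add_apply, iterate_one]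
    have e1 : flip bind (TM2.step M) (some ⟨some (ι (entry (.ite k t p q))), none, S⟩) =
        some ⟨some (ι (some (Sum.inl (entry p)))), none, S⟩ := by
      have := hM (entry (.ite k t p q))
      simp only [flip, Option.bind_eq_bind, Option.bind_some, TM2.step, this]
      simp [code, entry, test, ht]
    rw [e1]
    exact ih (fun l => ι (some (Sum.inl l))) ex (fun l => hM (some (Sum.inl l)))
  | @iteF k t p q S S' n ht h ih =>
    intro ι ex hM
    rw [iterate_add_apply, iterate_one]
    have e1 : flip bind (TM2.step M) (some ⟨some (ι (entry (.ite k t p q))), none, S⟩) =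
        some ⟨some (ι (some (Sum.inr (entry q)))), none, S⟩ := by
      have := hM (entry (.ite k t p q))
      simp only [flip, Option.bind_eq_bind, Option.bind_some, TM2.step, this]
      simp [code, entry, test, ht]
    rw [e1]
    exact ih (fun l => ι (some (Sum.inr l))) ex (fun l => hM (some (Sum.inr l)))
  | @loopF k t p S ht =>
    intro ι ex hM
    have := hM (entry (.loop k t p))
    simp only [iterate_one, flip, Option.bind_eq_bind, Option.bind_some, TM2.step, this]
    simp [code, entry, test, ht]
  | @loopT k t p S S' S'' m n ht h1 h2 ih1 ih2 =>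
    intro ι ex hM
    rw [iterate_add_apply, iterate_one, Nat.add_comm m n, iterate_add_apply]
    have e1 : flip bind (TM2.step M) (some ⟨some (ι (entry (.loop k t p))), none, S⟩) =
        some ⟨some (ι (some (entry p))), none, S⟩ := by
      have := hM (entry (.loop k t p))
      simp only [flip, Option.bind_eq_bind, Option.bind_some, TM2.step, this]
      simp [code, entry, test, ht]
    rw [e1]
    have e2 := ih1 (fun l => ι (some l)) (ι none) (fun l => hM (some l))
    rw [e2]
    exact ih2 ι ex hM

/-- The machine of a program. -/
noncomputable def machine (p : Prog) : FinTM2 where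
  K := K
  k₀ := K.v
  k₁ := K.v
  Γ := fun _ => Bool
  Λ := Option (L p)
  main := some (entry p)
  ΛFin := Fintype.ofFinite _
  σ := Option Bool
  initialState := none
  Γk₀Fin := inferInstanceAs (Fintype Bool)
  m := fun l => Option.elim l .halt (code p some none)

/-- Stacks with only the first one possibly non-empty. -/
def only (x : List Bool) : St := fun k => match k with
  | .v => x
  | _ => []

theorem machine_outputs {p : Prog} {x y : List Bool} {n : ℕ} (h : Run p (only x) (only y) n) :
    (flip bind (machine p).step)^[n + 1] (some (initList (machine p) x)) =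
      some (haltList (machine p) y) := by
  have h1 : initList (machine p) x = ⟨some (some (entry p)), none, only x⟩ := by
    unfold initList
    congr 1
    funext k
    cases k <;> rfl
  have h2 : haltList (machine p) y = ⟨none, none, only y⟩ := by
    unfold haltList
    congr 1
    funext k
    cases k <;> rfl
  rw [h1, h2]
  have := sim (machine p).m h some none (fun l => rfl)
  rw [Nat.add_comm, iterate_add_apply]
  refine (congrArg _ this).trans ?_
  rfl

/-- If a program computes `f` on encodings in polynomial time then `f` is computable in
polynomial time by a `TM2` machine. -/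
theorem toTM2 {α β : Type} {ea : α → List Bool} {eb : β → List Bool} {f : α → β} (p : Prog)
    (P : Polynomial ℕ)
    (h : ∀ a, ∃ n ≤ P.eval (ea a).length, Run p (only (ea a)) (only (eb (f a))) n) :
    Nonempty (TM2ComputableInPolyTime ea eb f) := by
  choose n hn hrun using h
  refine ⟨{ tm := machine p, inputAlphabet := Equiv.refl Bool, outputAlphabet := Equiv.refl Bool,
            time := P + 1, outputsFun := fun a => ?_ }⟩
  refine { steps := n a + 1, evals_in_steps := ?_, steps_le_m := ?_ }
  · have e1 : List.map (Equiv.refl Bool).invFun (ea a) = ea a := List.map_id _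
    have e2 : List.map (Equiv.refl Bool).invFun (eb (f a)) = eb (f a) := List.map_id _
    exact (congrArg (fun x => (flip bind (machine p).step)^[n a + 1]
      (some (initList (machine p) x))) e1).trans ((machine_outputs (hrun a)).trans
        (congrArg (fun y => some (haltList (machine p) y)) e2.symm))
  · simpa using hn a

end Pool.Agent.H79.Cx
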