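import Pool.Agent.H79.PT.Closure

/-!
Closure properties: unary natural numbers, ranges, random access, clamped loops.
-/

namespace Pool.Agent.H79.Cx

open Function

variable {α β γ δ σ : Type} [Enc α] [Enc β] [Enc γ] [Enc δ] [Enc σ]

@[fun_prop]
theorem PT.succ {f : α → ℕ} (hf : PT f) : PT (fun x => f x + 1) := by
  have h : PT (fun x => D.cons D.nil (Enc.enc (f x))) := by fun_prop
  exact ⟨h.ex⟩

theorem PT.pred {f : α → ℕ} (hf : PT f) : PT (fun x => f x - 1) := by
  refine PT.comp (g := fun n : ℕ => n - 1) ?_ hf
  refine PT.of_D PT.cdr ?_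
  intro n
  cases n <;> rfl

@[fun_prop]
theorem PT.add {f g : α → ℕ} (hf : PT f) (hg : PT g) : PT (fun x => f x + g x) := by
  obtain ⟨F, hF⟩ := hf.size_le
  obtain ⟨G, hG⟩ := hg.size_le
  have key : ∀ (m i : ℕ), (fun n : ℕ => n + 1)^[i] m = m + i := by
    intro m i
    induction i with
    | zero => rfl
    | succ i ih => rw [iterate_succ_apply', ih]; rfl
  have h : PT (fun x => (fun n : ℕ => n + 1)^[g x] (f x)) := by
    refine PT.iterate (f := fun _ n => n + 1) (by fun_prop) hg hf (F + 2 * G) ?_
    intro a i hi
    rw [key]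
    have h1 := hF a
    have h2 := hG a
    simp only [sz_nat] at h1 h2 ⊢
    simp only [Polynomial.eval_add, Polynomial.eval_mul, Polynomial.eval_ofNat]
    omega
  refine cast (congrArg _ (funext fun a => ?_)) h
  rw [key]

@[fun_prop]
theorem PT.sub {f g : α → ℕ} (hf : PT f) (hg : PT g) : PT (fun x => f x - g x) := by
  obtain ⟨F, hF⟩ := hf.size_le
  have key : ∀ (m i : ℕ), (fun n : ℕ => n - 1)^[i] m = m - i := by
    intro m i
    induction i with
    | zero => rfl
    | succ i ih => rw [iterate_succ_apply', ih]; rfl
  have h : PT (fun x => (fun n : ℕ => n - 1)^[g x] (f x)) := by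
    refine PT.iterate (f := fun _ n => n - 1) (PT.pred (by fun_prop)) hg hf F ?_
    intro a i hi
    rw [key]
    have h1 := hF a
    simp only [sz_nat] at h1 ⊢
    omega
  refine cast (congrArg _ (funext fun a => ?_)) h
  rw [key]

@[fun_prop]
theorem PT.mul {f g : α → ℕ} (hf : PT f) (hg : PT g) : PT (fun x => f x * g x) := by
  obtain ⟨F, hF⟩ := hf.size_le
  obtain ⟨G, hG⟩ := hg.size_le
  have key : ∀ (m i : ℕ), (fun n : ℕ => n + m)^[i] 0 = m * i := by
    intro m i
    induction i with
    | zero => rfl
    | succ i ih => rw [iterate_succ_apply', ih]; rfl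
  have h : PT (fun x => (fun n : ℕ => n + f x)^[g x] 0) := by
    refine PT.iterate (f := fun x n => n + f x) (by fun_prop) hg (by fun_prop)
      (2 * F * G + 1) ?_
    intro a i hi
    rw [key]
    have h1 := hF a
    have h2 := hG a
    simp only [sz_nat] at h1 h2 ⊢
    simp only [Polynomial.eval_add, Polynomial.eval_mul, Polynomial.eval_ofNat,
      Polynomial.eval_one]
    have h3 : f a * i ≤ F.eval (sz a) * G.eval (sz a) := Nat.mul_le_mul (by omega) (by omega)
    nlinarith
  refine cast (congrArg _ (funext fun a => ?_)) h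
  rw [key]

@[fun_prop]
theorem PT.pow {f : α → ℕ} (hf : PT f) (k : ℕ) : PT (fun x => f x ^ k) := by
  induction k with
  | zero => simp only [pow_zero]; fun_prop
  | succ k ih => simp only [pow_succ]; fun_prop

@[fun_prop]
theorem PT.eq_zero {f : α → ℕ} (hf : PT f) : PT (fun x => decide (f x = 0)) := by
  have h : PT (fun x => !(Cx.isCons (Enc.enc (f x)))) := by fun_prop
  refine cast (congrArg _ (funext fun a => ?_)) h
  cases f a <;> rfl

@[fun_prop]
theorem PT.le {f g : α → ℕ} (hf : PT f) (hg : PT g) : PT (fun x => decide (f x ≤ g x)) := by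
  have h : PT (fun x => decide (f x - g x = 0)) := PT.eq_zero (by fun_prop)
  refine cast (congrArg _ (funext fun a => ?_)) h
  rw [decide_eq_decide]
  omega

@[fun_prop]
theorem PT.lt {f g : α → ℕ} (hf : PT f) (hg : PT g) : PT (fun x => decide (f x < g x)) := by
  have h : PT (fun x => decide (f x + 1 ≤ g x)) := PT.le (by fun_prop) hg
  exact h

@[fun_prop]
theorem PT.natEq {f g : α → ℕ} (hf : PT f) (hg : PT g) : PT (fun x => decide (f x = g x)) := by
  have h : PT (fun x => decide (f x ≤ g x) && decide (g x ≤ f x)) := by fun_prop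
  refine cast (congrArg _ (funext fun a => ?_)) h
  rw [← Bool.decide_and, decide_eq_decide]
  omega

@[fun_prop]
theorem PT.max {f g : α → ℕ} (hf : PT f) (hg : PT g) : PT (fun x => max (f x) (g x)) := by
  have h : PT (fun x => if f x ≤ g x then g x else f x) := by fun_prop
  refine cast (congrArg _ (funext fun a => ?_)) h
  split_ifs <;> omega

@[fun_prop]
theorem PT.length {l : α → List β} (hl : PT l) : PT (fun x => (l x).length) := by
  have h1 : PT (fun x => (l x).map (fun _ => ())) := PT.map (by fun_prop) hl
  have h2 : PT (fun l : List Unit => l.length) := by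
    refine PT.of_enc_eq fun l => ?_
    induction l with
    | nil => rfl
    | cons a l ih =>
      change D.cons D.nil (Enc.enc l.length) = D.cons D.nil (Enc.enc l)
      rw [ih]
  have h := PT.comp h2 h1
  simpa using h

@[fun_prop]
theorem PT.tail {l : α → List β} (hl : PT l) : PT (fun x => (l x).tail) := by
  refine PT.comp (g := fun l : List β => l.tail) ?_ hl
  refine PT.of_D PT.cdr ?_
  intro n
  cases n <;> rfl

@[fun_prop]
theorem PT.headD {l : α → List β} {d : α → β} (hl : PT l) (hd : PT d) :
    PT (fun x => (l x).headD (d x)) := by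
  have h := PT.listCases (g := d) (h := fun _ b _ => b) hl hd (by fun_prop)
  refine cast (congrArg _ (funext fun a => ?_)) h
  cases l a <;> rfl

@[fun_prop]
theorem PT.drop {l : α → List β} {n : α → ℕ} (hl : PT l) (hn : PT n) :
    PT (fun x => (l x).drop (n x)) := by
  obtain ⟨R, hR⟩ := hl.size_le
  have key : ∀ (m : List β) (i : ℕ), (fun m : List β => m.tail)^[i] m = m.drop i := by
    intro m i
    induction i with
    | zero => rfl
    | succ i ih => rw [iterate_succ_apply', ih]; simp
  have h : PT (fun x => (fun m : List β => m.tail)^[n x] (l x)) := by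
    refine PT.iterate (f := fun _ m => m.tail) (by fun_prop) hn hl R ?_
    intro a i hi
    rw [key]
    exact (sz_drop_le _ _).trans (hR a)
  refine cast (congrArg _ (funext fun a => ?_)) h
  rw [key]

@[fun_prop]
theorem PT.getD {l : α → List β} {n : α → ℕ} {d : α → β} (hl : PT l) (hn : PT n) (hd : PT d) :
    PT (fun x => (l x).getD (n x) (d x)) := by
  have h : PT (fun x => ((l x).drop (n x)).headD (d x)) := by fun_prop
  refine cast (congrArg _ (funext fun a => ?_)) h
  rw [List.getD_eq_getElem?_getD, List.headD_eq_head?_getD, List.head?_drop]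

@[fun_prop]
theorem PT.append {l m : α → List β} (hl : PT l) (hm : PT m) : PT (fun x => l x ++ m x) := by
  obtain ⟨R, hR⟩ := hl.size_le
  obtain ⟨Q, hQ⟩ := hm.size_le
  have h : PT (fun a => ((l a).reverse).foldl (fun s b => b :: s) (m a)) := by
    refine PT.foldl (f := fun _ s b => b :: s) (by fun_prop) (by fun_prop) hm (R + Q) ?_
    intro a i _
    have h1 := sz_reverseAux (((l a).reverse).take i) (m a)
    have h2 := sz_take_le (l a).reverse i
    rw [sz_reverse] at h2
    have h3 := hR a
    have h4 := hQ a
    simp only [Polynomial.eval_add]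
    omega
  refine cast (congrArg _ (funext fun a => ?_)) h
  rw [List.foldl_flip_cons_eq_append]
  simp

theorem sz_range_le (n : ℕ) : sz (List.range n) ≤ 1 + n * (1 + (2 * n + 1)) := by
  have := sz_list_le (List.range n) (2 * n + 1) (fun b hb => by
    rw [List.mem_range] at hb
    rw [sz_nat]
    omega)
  simpa using this

@[fun_prop]
theorem PT.range {n : α → ℕ} (hn : PT n) : PT (fun x => List.range (n x)) := by
  obtain ⟨R, hR⟩ := hn.size_le
  have key : ∀ (i : ℕ), (fun m : List ℕ => m.length :: m)^[i] [] = (List.range i).reverse := by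
    intro i
    induction i with
    | zero => rfl
    | succ i ih => rw [iterate_succ_apply', ih]; simp [List.range_succ]
  have h : PT (fun x => ((fun m : List ℕ => m.length :: m)^[n x] []).reverse) := by
    refine PT.reverse (PT.iterate (f := fun _ m => m.length :: m) (by fun_prop) hn (by fun_prop)
      (1 + R * (1 + (2 * R + 1))) ?_)
    intro a i hi
    rw [key, sz_reverse]
    refine (sz_range_le i).trans ?_
    have h1 := hR a
    rw [sz_nat] at h1
    simp only [Polynomial.eval_add, Polynomial.eval_mul, Polynomial.eval_one,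
      Polynomial.eval_ofNat]
    have h2 : i ≤ R.eval (sz a) := by omega
    have h3 : i * (1 + (2 * i + 1)) ≤ R.eval (sz a) * (1 + (2 * R.eval (sz a) + 1)) :=
      Nat.mul_le_mul h2 (by omega)
    omega
  refine cast (congrArg _ (funext fun a => ?_)) h
  rw [key]
  simp

/-- Tabulation. -/
def tab (n : ℕ) (f : ℕ → β) : List β := (List.range n).map f

omit [Enc β] in
@[simp] theorem length_tab (n : ℕ) (f : ℕ → β) : (tab n f).length = n := by simp [tab]

omit [Enc β] in
theorem getD_tab (n : ℕ) (f : ℕ → β) (i : ℕ) (d : β) :
    (tab n f).getD i d = if i < n then f i else d := by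
  unfold tab
  rw [List.getD_eq_getElem?_getD]
  split_ifs with h
  · simp [h]
  · simp [h]

omit [Enc β] in
theorem getD_tab_lt {n : ℕ} (f : ℕ → β) {i : ℕ} (d : β) (h : i < n) :
    (tab n f).getD i d = f i := by
  rw [getD_tab, if_pos h]

omit [Enc β] in
theorem tab_congr {n : ℕ} {f g : ℕ → β} (h : ∀ i < n, f i = g i) : tab n f = tab n g := by
  unfold tab
  exact List.map_congr_left fun i hi => h i (List.mem_range.1 hi)

theorem sz_tab_le {n : ℕ} {f : ℕ → β} {B : ℕ} (h : ∀ i < n, sz (f i) ≤ B) :
    sz (tab n f) ≤ 1 + n * (1 + B) := by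
  have := sz_list_le (tab n f) B (fun b hb => by
    obtain ⟨i, hi, rfl⟩ := List.mem_map.1 hb
    exact h i (List.mem_range.1 hi))
  simpa using this

theorem PT.tab {f : α → ℕ → β} {n : α → ℕ} (hf : PT (fun p : α × ℕ => f p.1 p.2)) (hn : PT n) :
    PT (fun a => tab (n a) (f a)) :=
  PT.map hf (PT.range hn)

attribute [fun_prop] PT.tab

/-- Clamping to a given size. -/
def clamp [Inhabited σ] (L : ℕ) (x : σ) : σ := if sz x ≤ L then x else default

theorem clamp_of_le [Inhabited σ] {L : ℕ} {x : σ} (h : sz x ≤ L) : clamp L x = x := if_pos h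

theorem sz_clamp_le [Inhabited σ] (L : ℕ) (x : σ) : sz (clamp L x) ≤ L + sz (default : σ) := by
  unfold clamp
  split_ifs with h <;> omega

@[fun_prop]
theorem PT.clamp [Inhabited σ] {L : α → ℕ} {x : α → σ} (hL : PT L) (hx : PT x) :
    PT (fun a => clamp (L a) (x a)) := by
  have h : PT (fun a => if sz (x a) ≤ L a then x a else default) := by fun_prop
  exact h

/-- Clamped iteration. -/
def iterC [Inhabited σ] (L : ℕ) (f : σ → σ) (n : ℕ) (s : σ) : σ :=
  (fun s => clamp L (f s))^[n] s

theorem sz_iterC_le [Inhabited σ] (L : ℕ) (f : σ → σ) (n : ℕ) (s : σ) :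
    sz (iterC L f n s) ≤ sz s + L + sz (default : σ) := by
  unfold iterC
  cases n with
  | zero => simp only [iterate_zero, id]; omega
  | succ n =>
    rw [iterate_succ_apply']
    have := sz_clamp_le L (f ((fun s => clamp L (f s))^[n] s))
    omega

theorem iterC_eq [Inhabited σ] {L : ℕ} {f : σ → σ} {n : ℕ} {s : σ}
    (h : ∀ i < n, sz (f^[i + 1] s) ≤ L) : iterC L f n s = f^[n] s := by
  unfold iterC
  induction n with
  | zero => rfl
  | succ n ih =>
    rw [iterate_succ_apply', ih (fun i hi => h i (by omega)), iterate_succ_apply']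
    refine clamp_of_le ?_
    have := h n (by omega)
    rwa [iterate_succ_apply'] at this

@[fun_prop]
theorem PT.iterC [Inhabited σ] {f : α → σ → σ} {n L : α → ℕ} {s : α → σ}
    (hf : PT (fun p : α × σ => f p.1 p.2)) (hn : PT n) (hL : PT L) (hs : PT s) :
    PT (fun a => iterC (L a) (f a) (n a) (s a)) := by
  obtain ⟨R, hR⟩ := hs.size_le
  obtain ⟨Q, hQ⟩ := hL.size_le
  refine PT.iterate (f := fun a s => Cx.clamp (L a) (f a s)) ?_ hn hs
    (R + Q + Polynomial.C (sz (default : σ))) ?_
  · fun_prop
  · intro a i hi
    refine (sz_iterC_le (L a) (f a) i (s a)).trans ?_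
    have h1 := hR a
    have h2 := hQ a
    rw [sz_nat] at h2
    simp only [Polynomial.eval_add, Polynomial.eval_C]
    omega

/-- Clamped left fold. -/
def foldC [Inhabited σ] (L : ℕ) (f : σ → β → σ) (l : List β) (s : σ) : σ :=
  l.foldl (fun s b => clamp L (f s b)) s

omit [Enc β] in
theorem sz_foldC_le [Inhabited σ] (L : ℕ) (f : σ → β → σ) (l : List β) (s : σ) :
    sz (foldC L f l s) ≤ sz s + L + sz (default : σ) := by
  unfold foldC
  rcases List.eq_nil_or_concat l with h | ⟨m, b, h⟩
  · subst h; simp only [List.foldl_nil]; omega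
  · subst h
    rw [List.concat_eq_append, List.foldl_append, List.foldl_cons, List.foldl_nil]
    have := sz_clamp_le L (f (List.foldl (fun s b => clamp L (f s b)) s m) b)
    omega

omit [Enc β] in
theorem foldC_eq [Inhabited σ] {L : ℕ} {f : σ → β → σ} {l : List β} {s : σ}
    (h : ∀ i < l.length, sz ((l.take (i + 1)).foldl f s) ≤ L) : foldC L f l s = l.foldl f s := by
  unfold foldC
  induction l using List.reverseRecOn with
  | nil => rfl
  | append_singleton l b ih =>
    rw [List.foldl_append, List.foldl_append, ih]
    · simp only [List.foldl_cons, List.foldl_nil]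
      refine clamp_of_le ?_
      have := h l.length (by simp)
      rw [List.take_of_length_le (by simp), List.foldl_append] at this
      exact this
    · intro i hi
      have := h i (by simp; omega)
      rwa [List.take_append_of_le_length (by omega)] at this

@[fun_prop]
theorem PT.foldC [Inhabited σ] {f : α → σ → β → σ} {L : α → ℕ} {l : α → List β} {s : α → σ}
    (hf : PT (fun p : α × σ × β => f p.1 p.2.1 p.2.2)) (hL : PT L) (hl : PT l) (hs : PT s) :
    PT (fun a => foldC (L a) (f a) (l a) (s a)) := by
  obtain ⟨R, hR⟩ := hs.size_le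
  obtain ⟨Q, hQ⟩ := hL.size_le
  refine PT.foldl (f := fun a s b => Cx.clamp (L a) (f a s b)) ?_ hl hs
    (R + Q + Polynomial.C (sz (default : σ))) ?_
  · fun_prop
  · intro a i _
    refine (sz_foldC_le (L a) (f a) ((l a).take i) (s a)).trans ?_
    have h1 := hR a
    have h2 := hQ a
    rw [sz_nat] at h2
    simp only [Polynomial.eval_add, Polynomial.eval_C]
    omega

/-- Bounded search for the first index with a given property. -/
def findFirst (n : ℕ) (p : ℕ → Bool) : ℕ :=
  (List.range n).reverse.foldl (fun s i => if p i = true then i else s) n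

theorem findFirst_zero (p : ℕ → Bool) : findFirst 0 p = 0 := rfl

theorem findFirst_aux (l : List ℕ) (p : ℕ → Bool) (m B : ℕ) (hm : m ≤ B) (hl : ∀ i ∈ l, i ≤ B) :
    l.foldl (fun s i => if p i = true then i else s) m ≤ B := by
  induction l generalizing m with
  | nil => exact hm
  | cons a l ih =>
    simp only [List.foldl_cons]
    refine ih _ ?_ (fun i hi => hl i (by simp [hi]))
    split_ifs
    · exact hl a (by simp)
    · exact hm

@[fun_prop]
theorem PT.findFirst {n : α → ℕ} {p : α → ℕ → Bool} (hp : PT (fun x : α × ℕ => p x.1 x.2))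
    (hn : PT n) : PT (fun a => findFirst (n a) (p a)) := by
  obtain ⟨R, hR⟩ := hn.size_le
  refine PT.foldl (f := fun a s i => if p a i = true then i else s) ?_ (by fun_prop) hn R ?_
  · refine PT.ite ?_ (by fun_prop) (by fun_prop)
    exact hp.comp (f := fun x : α × ℕ × ℕ => (x.1, x.2.2)) (by fun_prop)
  · intro a i _
    rw [sz_nat]
    have h1 := hR a
    rw [sz_nat] at h1
    have h2 := findFirst_aux (((List.range (n a)).reverse).take i) (p a) (n a) (n a) le_rfl
      (fun j hj => by
        have := List.mem_of_mem_take hj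
        simp at this
        omega)
    omega

theorem findFirst_spec {n : ℕ} {p : ℕ → Bool} {k : ℕ} (hk : k < n) (hpk : p k = true)
    (hmin : ∀ i < k, p i = false) : findFirst n p = k := by
  unfold findFirst
  have key : ∀ (m : ℕ) (hm : k < m) (s : ℕ),
      (List.range m).reverse.foldl (fun s i => if p i = true then i else s) s = k := by
    intro m
    induction m with
    | zero => intro hm; omega
    | succ m ih =>
      intro hm s
      rw [List.range_succ, List.reverse_append]
      simp only [List.reverse_singleton, List.singleton_append, List.foldl_cons]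
      rcases Nat.lt_or_ge k m with h | h
      · exact ih h _
      · have : k = m := by omega
        subst this
        rw [if_pos hpk]
        have : ∀ (j : ℕ) (hj : j ≤ k),
            (List.range j).reverse.foldl (fun s i => if p i = true then i else s) k = k := by
          intro j
          induction j with
          | zero => intro _; rfl
          | succ j ihj =>
            intro hj
            rw [List.range_succ, List.reverse_append]
            simp only [List.reverse_singleton, List.singleton_append, List.foldl_cons]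
            rw [if_neg (by simp [hmin j (by omega)])]
            exact ihj (by omega)
        exact this k le_rfl
  exact key n hk n

@[fun_prop]
theorem PT.all {n : α → ℕ} {p : α → ℕ → Bool} (hp : PT (fun x : α × ℕ => p x.1 x.2))
    (hn : PT n) : PT (fun a => (List.range (n a)).all (p a)) := by
  have h : PT (fun a => (List.range (n a)).foldl (fun s i => s && p a i) true) := by
    refine PT.foldl (f := fun a s i => s && p a i) ?_ (by fun_prop) (by fun_prop) 3 ?_
    · refine PT.and' (by fun_prop) ?_
      exact hp.comp (f := fun x : α × Bool × ℕ => (x.1, x.2.2)) (by fun_prop)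
    · intro a i _
      simp only [Polynomial.eval_ofNat]
      exact sz_bool_le _
  refine cast (congrArg _ (funext fun a => ?_)) h
  have : ∀ (l : List ℕ) (s : Bool), l.foldl (fun s i => s && p a i) s = (s && l.all (p a)) := by
    intro l
    induction l with
    | nil => simp
    | cons b l ih => intro s; simp [ih, Bool.and_assoc]
  rw [this]
  simp

end Pool.Agent.H79.Cx
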